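import Pool.Agent.W661.RC.Stm3
import Pool.Agent.W881.RC.Fin

/-! Project RC, part FIN with more outputs (proof adapted from Pool.Agent.W881.RC.Fin). -/

set_option autoImplicit false

namespace Pool.Agent.W661.RC.Fin2

open Matrix Filter Topology Pool.Agent.W661.RC Pool.Agent.W881.RC.Fin
open scoped ComplexOrder

theorem fin {d k : ℕ} {C η δ : ℝ} (S : Stp d k C η δ) (hd0 : (0 : ℝ) < (d : ℝ))
    {γ E C2 ζ ε X : ℝ} (hγ0 : 0 < γ) (hE : E = C2 + 1 / γ) (hE0 : 0 < E) (hC2 : 1 ≤ C2)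
    (hζ0 : 0 < ζ) {n : ℕ} {q : _root_.Fin n → Mt d} (hpr : ∀ i, IsPr (q i))
    (hgap : ∀ i, Gap S.u C2 ζ (q i)) {c : _root_.Fin n → _root_.Fin n}
    (hc4 : ∀ i j, c i ≠ c j → ∀ x : Mt d, q (c i) * x * q (c j) = x → γ * hs x ≤ en S.u x)
    (h1 : As1P) (h2 : As2P)
    (I : Finset (_root_.Fin n)) (l : _root_.Fin n → ℕ)
    (b : (κ : _root_.Fin n) → Matrix (_root_.Fin d) (_root_.Fin (l κ)) ℂ)
    (Θ : Matrix (_root_.Fin d) (Jx (fun i : I => c i) l) ℂ)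
    (hΘ : Θᴴ * Θ = 1) (hb1 : ∀ κ, (b κ)ᴴ * b κ = 1) (hb2 : ∀ κ, q κ * b κ = b κ)
    (g1 : (d : ℝ) - Fintype.card (Jx (fun i : I => c i) l) ≤ 100 * X * d)
    (g2 : ∑ s, hs (S.u s * Θ - Θ * Ut (fun i : I => c i) l b (S.u s))
      ≤ 1000 * ((k : ℝ) + 1) * X * d)
    (g3 : ∑ s, hs ((S.u s)ᴴ * Θ - Θ * (Ut (fun i : I => c i) l b (S.u s))ᴴ)
      ≤ 1000 * ((k : ℝ) + 1) * X * d)
    (g4 : ∑ s, ∑ i : I, hs (S.u s * b (c i) - b (c i) * ((b (c i))ᴴ * S.u s * b (c i)))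
      ≤ 1000 * ((k : ℝ) + 1) * X * d)
    (g5 : ∑ s, ∑ i : I, hs ((S.u s)ᴴ * b (c i) - b (c i) * ((b (c i))ᴴ * (S.u s)ᴴ * b (c i)))
      ≤ 1000 * ((k : ℝ) + 1) * X * d)
    (n1 : 4 * (1000 * ((k : ℝ) + 1) * X) ≤ ε) (n2 : 100 * X ≤ ε)
    (n3 : 800 * X + 2 * (E * (24 * (1000 * ((k : ℝ) + 1) * X))) + 2 * C2 * ζ ≤ ε) :
    ∃ (O : Out d) (b : (κ : O.K) → Matrix (_root_.Fin d) (_root_.Fin (O.l κ)) ℂ),
        (∀ κ, (b κ)ᴴ * b κ = 1) ∧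
        ∑ s, hs (S.u s * O.Θ - O.Θ * Ut O.c O.l b (S.u s)) ≤ ε * d ∧
        (∀ a ∈ O.alg, Le (aᴴ * a) 1 → en S.u a ≤ ε * d) ∧
        (∀ x : Mt d, Le (xᴴ * x) 1 → ∃ a ∈ O.alg, Le (aᴴ * a) 1 ∧
          hs (x - a) ≤ 18 * E * en S.u x + ε * d) ∧
        (d : ℝ) - Fintype.card (Jx O.c O.l) ≤ ε * d := by
  let O : Out d :=
    { I := {x // x ∈ I}
      K := _root_.Fin n
      fI := inferInstance
      dI := inferInstance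
      dK := inferInstance
      c := fun i => c i
      l := l
      Θ := Θ
      iso := hΘ }
  have hk0 : (0 : ℝ) ≤ (k : ℝ) := Nat.cast_nonneg k
  have hε1 : 1000 * ((k : ℝ) + 1) * X * d ≤ ε * d := by
    refine mul_le_mul_of_nonneg_right ?_ hd0.le
    by_contra hcon
    have hX1 : ¬ 0 ≤ X := by
      intro hX
      have : 0 ≤ 1000 * ((k : ℝ) + 1) * X := by positivity
      linarith
    have hXn : X < 0 := not_le.1 hX1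
    have h100 : 0 ≤ ∑ s, hs (S.u s * Θ - Θ * Ut (fun i : I => c i) l b (S.u s)) :=
      Finset.sum_nonneg fun s _ => hs_nonneg _
    have h101 : 1000 * ((k : ℝ) + 1) * X * d < 0 := by
      have : 0 < 1000 * ((k : ℝ) + 1) * (d : ℝ) := by positivity
      nlinarith
    linarith
  refine ⟨O, b, hb1, g2.trans hε1, ?_, ?_, ?_⟩
  · rintro x ⟨Y, hY, rfl⟩ hx
    have hY1 : Le (Yᴴ * Y) 1 := le_of_conj Θ hΘ Y hx
    have := h1 d k S.u {x // x ∈ I} (_root_.Fin n) (fun i => c i) l b Θ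
      (1000 * ((k : ℝ) + 1) * X * d) S.hu hΘ g2 g3 Y hY hY1
    refine this.trans ?_
    calc 4 * (1000 * ((k : ℝ) + 1) * X * d) = 4 * (1000 * ((k : ℝ) + 1) * X) * d := by ring
      _ ≤ ε * d := mul_le_mul_of_nonneg_right n1 hd0.le
  · intro x hx
    obtain ⟨Y, hY, hY1, hY2⟩ := h2 d k S.u {x // x ∈ I} (_root_.Fin n) (fun i => c i) l b q Θ
      (1000 * ((k : ℝ) + 1) * X * d) (1000 * ((k : ℝ) + 1) * X * d) C2 ζ γ S.hu hγ0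
      (by linarith) hζ0.le hΘ hb1 hpr hb2 (fun i => hgap _)
      (fun i j hij => hc4 i j hij) g2 g3 g4 g5 x hx
    refine ⟨Θ * Y * Θᴴ, ⟨Y, hY, rfl⟩, le_conj Θ hΘ Y hY1, hY2.trans ?_⟩
    have e0 := en_nonneg S.u x
    have e1 : 8 * ((d : ℝ) - Fintype.card (Jx (fun i : {x // x ∈ I} => c i) l)) ≤ 800 * X * d := by
      have := g1
      linarith
    rw [← hE]
    have e2 : 2 * (E * (9 * (2 * (1000 * ((k : ℝ) + 1) * X * d) + en S.u x)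
          + 6 * (1000 * ((k : ℝ) + 1) * X * d)) + C2 * ζ * d)
        = 18 * E * en S.u x + (2 * (E * (24 * (1000 * ((k : ℝ) + 1) * X))) + 2 * C2 * ζ) * d := by
      ring
    rw [e2]
    have e3 : (800 * X + 2 * (E * (24 * (1000 * ((k : ℝ) + 1) * X))) + 2 * C2 * ζ) * d ≤ ε * d :=
      mul_le_mul_of_nonneg_right n3 hd0.le
    have e4 : (800 * X + 2 * (E * (24 * (1000 * ((k : ℝ) + 1) * X))) + 2 * C2 * ζ) * d
        = 800 * X * d + (2 * (E * (24 * (1000 * ((k : ℝ) + 1) * X))) + 2 * C2 * ζ) * d := by ring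
    linarith
  · refine le_trans g1 ?_
    exact mul_le_mul_of_nonneg_right n2 hd0.le

theorem main (hD : DecP) (hG : GapP) (hC : ClsP) (h0 : As0P) (h1 : As1P) (h2 : As2P) : Fin2P := by
  intro k C hC1
  obtain ⟨C2, hC2⟩ : ∃ C2 : ℝ, C2 = 16 * ((k : ℝ) + 1) * (2048 * C) ^ 2 := ⟨_, rfl⟩
  have hk0 : (0 : ℝ) ≤ (k : ℝ) := Nat.cast_nonneg k
  have hC2one : 1 ≤ C2 := by
    rw [hC2]
    have e1 : (1 : ℝ) ≤ (2048 * C) ^ 2 := by nlinarith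
    nlinarith
  obtain ⟨γ, hγ⟩ : ∃ γ : ℝ, γ = 1 / (1000 * ((k : ℝ) + 1) * C2 * C) := ⟨_, rfl⟩
  have hγ0 : 0 < γ := by
    rw [hγ]
    have : 0 < 1000 * ((k : ℝ) + 1) * C2 * C := by positivity
    positivity
  obtain ⟨E, hE⟩ : ∃ E : ℝ, E = C2 + 1 / γ := ⟨_, rfl⟩
  have hE0 : 0 < E := by rw [hE]; positivity
  refine ⟨18 * E, by positivity, fun ε hε => ?_⟩
  obtain ⟨ζ, hζ0, hcon⟩ := consts (k : ℝ) C2 E γ ε hk0 hC2one hE0 hγ0 hε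
  obtain ⟨η0, hη0, hη⟩ := hD k C ζ hC1 hζ0
  obtain ⟨η, hηd⟩ : ∃ η : ℝ, η = min η0 ζ := ⟨_, rfl⟩
  have hηpos : 0 < η := by rw [hηd]; exact lt_min hη0 hζ0
  have hηζ : η ≤ ζ := by rw [hηd]; exact min_le_right _ _
  refine ⟨η, hηpos, fun δ hδ => ?_⟩
  obtain ⟨δ1, hδ1, hdec⟩ := hη η hηpos (by rw [hηd]; exact min_le_left _ _) δ hδ
  refine ⟨δ1, hδ1, fun d S hd hSD => ?_⟩
  obtain ⟨n, a, q, hDec⟩ := hdec d S hd hSD
  have hd0 : (0 : ℝ) < (d : ℝ) := by exact_mod_cast hd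
  obtain ⟨κ0, hκ⟩ : ∃ κ0 : ℝ, κ0 = 3000 * ((k : ℝ) + 1) * C2 * (ζ + η) := ⟨_, rfl⟩
  obtain ⟨X, hX⟩ : ∃ X : ℝ, X = √(√(ζ + κ0)) := ⟨_, rfl⟩
  obtain ⟨c1, c2, c3, c4, c5, n1, n2, n3⟩ := hcon η hηpos hηζ κ0 X hκ hX
  clear hcon
  have hgap : ∀ i, Gap S.u C2 ζ (q i) := by
    intro i
    have h5 := hG d k S.u (1 / (2048 * C)) ζ (q i) S.hu (hDec.pr i) (by positivity) hζ0.le
      (hDec.inv i) (hDec.iso i)
    refine Gap.mono h5 ?_ hζ0.le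
    rw [hC2]
    have h6 : 16 * (k : ℝ) / (1 / (2048 * C)) ^ 2 = 16 * (k : ℝ) * (2048 * C) ^ 2 := by
      field_simp
    rw [h6]
    have : 0 ≤ (2048 * C) ^ 2 := by positivity
    nlinarith
  obtain ⟨c, v, hv1, hv2, hc1, hc2, hc3, hc4⟩ := hC d k C η δ S C2 ζ n q hηpos hC1 hC2one hζ0.le
    (by rw [← hγ]; exact c4) hDec.pr hDec.nz hgap hDec.inv hDec.bad
  rw [← hγ] at hc4
  rw [← hκ] at hc3
  have hc2' : ∀ i, tr (q i) ≤ (1 + κ0) * tr (q (c i)) := by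
    intro i
    refine (hc2 i).trans ?_
    apply mul_le_mul_of_nonneg_right _ (hDec.nz (c i)).le
    rw [hκ]
    have h7 : 0 ≤ C2 * (ζ + η) := by positivity
    have h8 : 0 ≤ (k : ℝ) * (C2 * (ζ + η)) := by positivity
    linarith
  obtain ⟨I, l, b, Θ, hΘ, hb1, hb2, g1, g2, g3, g4, g5⟩ := h0 d k C η δ S ζ κ0 n a q v c hd hζ0
    c1 c2 c3 hDec hv1 hv2 hc1 hc2' hc3
  rw [← hX] at g1 g2 g3 g4 g5
  exact fin S hd0 hγ0 hE hE0 hC2one hζ0 hDec.pr hgap hc4 h1 h2 I l b Θ hΘ hb1 hb2 g1 g2 g3 g4 g5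
    n1 n2 n3

end Pool.Agent.W661.RC.Fin2
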