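import Pool.Agent.W661.RC.Stm
import Pool.Agent.W683.RC.Bas

set_option autoImplicit false

namespace Pool.Agent.W661.RC.IRR

open Matrix Pool.Agent.W661.RC Pool.Agent.W683.RC
open scoped ComplexOrder

theorem main (hI : IclP) : IrrP := by
  intro d k C η δ S lam a2 δ2 t ζ1 Q q hη hη2 hC hlam hQ hq hq0 hζ1 ha2 hδ2 ht hδ hov hD1 hD2
    hmin z hz hqz hen hzq
  by_contra hcon
  push Not at hcon
  have hz0 : 0 < tr z := lt_of_le_of_lt (by positivity) hcon
  have hzle : Le z q := pr_le hz hq hqz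
  have hhp : (hh lam Q).PosSemidef := hh_psd (by linarith) hQ
  have e1 : tr (hh lam Q * z) ≤ 1 / 200 * tr z := by
    have h1 : tr (hh lam Q * z) ≤ tr (hh lam Q * q) := Le_mul_tr hzle hhp
    have h2 : a2 * tr q ≤ ζ1 / 200 * tr q := mul_le_mul_of_nonneg_right ha2 hq0.le
    nlinarith
  have e2 : tr (S.D * z) ≤ δ2 * tr q := (Le_mul_tr hzle S.hD).trans hD1
  have hΦ : Le (S.Φ z) (S.Φ q) := by
    have := S.pos (q - z) hzle
    rw [map_sub] at this
    exact this
  have e3 : tr (S.D * S.Φ z) ≤ δ2 * tr q := (Le_mul_tr hΦ S.hD).trans hD2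
  have e4 : 16 * (δ2 * tr q) ≤ δ * tr z := by
    have h1 : 16 * δ2 * tr q ≤ ζ1 * δ * tr q := mul_le_mul_of_nonneg_right hδ2 hq0.le
    have h2 : δ * (ζ1 * tr q) ≤ δ * tr z := mul_le_mul_of_nonneg_left hcon.le hδ
    nlinarith
  have e0 : 0 ≤ tr (S.D * z) := tr_mul_nonneg S.hD (pr_psd hz)
  obtain ⟨f', hf', h1, h2, h3, h4, h5⟩ := hI d k C η δ S lam (1 / (2048 * C)) (1 / 200) (1 / 8) Q z
    hη.le (by linarith) hlam hQ hz hz0 (by norm_num) (by norm_num) (by norm_num)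
    (by
      have : C * (1 / (2048 * C)) = 1 / 2048 := by field_simp
      rw [mul_add, this]; nlinarith) hen e1
    (by
      have h1 : √(1 / 200 : ℝ) ≤ 71 / 1000 := by
        rw [Real.sqrt_le_left (by norm_num)]; norm_num
      have h0 := Real.sqrt_nonneg (1 / 200 : ℝ)
      nlinarith)
    (by nlinarith) (by linarith)
  have hJ := hmin f' hf'
  have h6 : tr (hh lam Q * f') ≤ (196 / 1000) ^ 2 * tr z := by
    have hs1 : √(tr (hh lam Q * z)) ≤ 71 / 1000 * √(tr z) := by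
      have h7 : √(tr (hh lam Q * z)) ≤ √(1 / 200 * tr z) := Real.sqrt_le_sqrt e1
      rw [Real.sqrt_mul (by norm_num)] at h7
      have h1 : √(1 / 200 : ℝ) ≤ 71 / 1000 := by
        rw [Real.sqrt_le_left (by norm_num)]; norm_num
      exact h7.trans (mul_le_mul_of_nonneg_right h1 (Real.sqrt_nonneg _))
    have hs2 : √(tr (hh lam Q * z)) + 1 / 8 * √(tr z) ≤ 196 / 1000 * √(tr z) := by linarith
    have hs3 : 0 ≤ √(tr (hh lam Q * z)) + 1 / 8 * √(tr z) := by positivity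
    have hs4 := pow_le_pow_left₀ hs3 hs2 2
    rw [mul_pow, Real.sq_sqrt hz0.le] at hs4
    exact h3.trans hs4
  unfold JJ at hJ
  have h7 : tr f' + tr (hh lam Q * f') ≤ (106 / 100) * tr z := by nlinarith
  have h8 : (1 + t) * (tr f' + tr (hh lam Q * f')) ≤ 11 / 10 * ((106 / 100) * tr z) := by
    have h9 : 0 ≤ tr f' + tr (hh lam Q * f') :=
      add_nonneg hf'.nz.le (tr_mul_nonneg hhp (pr_psd hf'.pr))
    calc (1 + t) * (tr f' + tr (hh lam Q * f')) ≤ 11 / 10 * (tr f' + tr (hh lam Q * f')) :=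
          mul_le_mul_of_nonneg_right (by linarith) h9
      _ ≤ _ := by linarith
  nlinarith

end Pool.Agent.W661.RC.IRR
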