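import Pool.Agent.W696.RC.LEV
import Pool.Agent.W193.RC.RESA
import Pool.Agent.W486.RC.ResB
import Pool.Agent.W179.RC.DAR
import Pool.Agent.W239.RC.CUT
import Pool.Agent.W371.RC.IMP
import Pool.Agent.W378.RC.ICL
import Pool.Agent.W654.RC.GRE
import Pool.Agent.W959.RC.PIC1
import Pool.Agent.W922.RC.PIC2
import Pool.Agent.W661.RC.IRR
import Pool.Agent.W98.RC.COR
import Pool.Agent.W885.RC.GAP
import Pool.Agent.W494.RC.POL
import Pool.Agent.W924.RC.RCINT
import Pool.Agent.W465.RC.NIS
import Pool.Agent.W392.RC.CMB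
import Pool.Agent.W410.RC.COV
import Pool.Agent.W440.RC.PTA
import Pool.Agent.W681.RC.PTB
import Pool.Agent.W103.RC.PTC
import Pool.Agent.W637.RC.PTD
import Pool.Agent.W822.RC.MAS
import Pool.Agent.W789.RC.CLS
import Pool.Agent.W538.RC.AS1
import Pool.Agent.W683.RC.As2
import Pool.Agent.W638.RC.AS0
import Pool.Agent.W303.RC.Alg
import Pool.Agent.W625.RC.UNI
import Pool.Agent.W370.RC.GE1
import Pool.Agent.W18.RC.Ge2
import Pool.Agent.W692.RC.LFT
import Pool.Agent.W881.RC.Mid
import Pool.Agent.W661.RC.DEC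
import Pool.Agent.W661.RC.Fin2

/-! Project RC: composition of all the parts. -/

set_option autoImplicit false

namespace Pool.Agent.W661.RC.All

open Pool.Agent.W661.RC

theorem lev : LevP := Pool.Agent.W696.RC.LEV.main
theorem resA : ResAP := Pool.Agent.W193.RC.main
theorem resB : ResBP := Pool.Agent.W486.RC.main resA
theorem dar : DarP := Pool.Agent.W179.RC.main
theorem cut : CutP := Pool.Agent.W239.RC.CUT.main
theorem imp : ImpP := Pool.Agent.W371.RC.IMP.main lev
theorem icl : IclP := Pool.Agent.W378.RC.ICL.main imp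
theorem gre : GreP := Pool.Agent.W654.RC.main resA
theorem pic1 : Pic1P := Pool.Agent.W959.RC.main lev cut icl
theorem pic2 : Pic2P := Pool.Agent.W922.RC.main lev cut icl pic1
theorem irr : IrrP := Pool.Agent.W661.RC.IRR.main icl
theorem cor : CorP := Pool.Agent.W98.RC.COR.main
theorem gap : GapP := Pool.Agent.W885.RC.main
theorem pol : PolP := Pool.Agent.W494.RC.main
theorem int : IntP := Pool.Agent.W924.RC.main pol
theorem nis : NisP := Pool.Agent.W465.RCNis.main
theorem cmb : CmbP := Pool.Agent.W392.RC.CMB.main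
theorem cov : CovP := Pool.Agent.W410.RC.COV.main lev icl
theorem pta : PtaP := W440.RC.main
theorem ptb : PtbP := Pool.Agent.W681.RC.main pta
theorem ptc : PtcP := Pool.Agent.W103.RC.main
theorem ptd : PtdP := Pool.Agent.W637.RC.PTD.main ptb ptc
theorem mas : MasP := Pool.Agent.W822.RC.MAS.main resA resB dar pic1
theorem dec : DecP := Pool.Agent.W661.RC.DEC.main gre resA mas pic2 irr cor cov
theorem cls : ClsP := Pool.Agent.W789.RC.CLS.main int
theorem as0 : As0P := Pool.Agent.W638.RC0.main nis cmb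
theorem as1 : As1P := Pool.Agent.W538.RC.AS1.main
theorem as2 : As2P := Pool.Agent.W683.RC.AS2.main
theorem fin2 : Fin2P := Pool.Agent.W661.RC.Fin2.main dec gap cls as0 as1 as2
theorem alg : AlgP := Pool.Agent.W303.RC.Alg.main
theorem uni : UniP := Pool.Agent.W625.RCUni.main
theorem ge1 : Ge1P := Pool.Agent.W370.RC.main
theorem ge2 : Ge2P := Pool.Agent.W18.RC.GE2.main uni ge1
theorem lft : LftP := Pool.Agent.W692.RC.LFT.main uni
theorem mid : MidP := Pool.Agent.W881.RC.Mid.main ptd fin2

end Pool.Agent.W661.RC.All
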