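import Pool.Agent.W661.RC.Stm2
import Pool.Agent.W683.RC.Bas

/-! Project RC, part DEC: covering and pieces. -/

set_option autoImplicit false

namespace Pool.Agent.W661.RC.DEC

open Matrix Filter Topology Pool.Agent.W661.RC Pool.Agent.W683.RC
open scoped ComplexOrder

theorem tr_le_rank {d : ℕ} (h : Mt d) (h0 : h.PosSemidef) (h1 : Le h 1) :
    tr h ≤ (h.rank : ℝ) := by
  have hh : h.IsHermitian := h0.1
  have e1 : tr h = ∑ i, hh.eigenvalues i := by
    unfold tr
    rw [hh.trace_eq_sum_eigenvalues]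
    simp
  have e2 : ∀ i, hh.eigenvalues i ≤ 1 := by
    intro i
    have h3 := h1.re_dotProduct_nonneg (hh.eigenvectorBasis i : Fin d → ℂ)
    have h4 : (1 - h) *ᵥ (hh.eigenvectorBasis i : Fin d → ℂ)
        = ((1 - hh.eigenvalues i : ℝ) : ℂ) • (hh.eigenvectorBasis i : Fin d → ℂ) := by
      rw [Matrix.sub_mulVec, Matrix.one_mulVec, hh.mulVec_eigenvectorBasis]
      ext j
      simp [sub_mul]
    rw [h4, dotProduct_smul] at h3
    have h5 : star (hh.eigenvectorBasis i : Fin d → ℂ) ⬝ᵥ (hh.eigenvectorBasis i : Fin d → ℂ) = 1 := by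
      have h6 := hh.eigenvectorBasis.orthonormal.1 i
      have h7 : inner ℂ (hh.eigenvectorBasis i) (hh.eigenvectorBasis i) = (1 : ℂ) := by
        rw [inner_self_eq_norm_sq_to_K, h6]; simp
      rw [EuclideanSpace.inner_eq_star_dotProduct] at h7
      rw [dotProduct_comm]
      exact h7
    rw [h5] at h3
    simp only [smul_eq_mul, mul_one, RCLike.re_to_complex, Complex.ofReal_re] at h3
    linarith
  rw [e1, hh.rank_eq_card_non_zero_eigs, Fintype.card_subtype]
  rw [Finset.card_eq_sum_ones, Nat.cast_sum, Finset.sum_filter]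
  apply Finset.sum_le_sum
  intro i _
  by_cases h3 : hh.eigenvalues i = 0
  · simp [h3]
  · simp [h3, e2 i]

theorem rank_add_le' {d : ℕ} (A B : Mt d) : (A + B).rank ≤ A.rank + B.rank := by
  unfold Matrix.rank
  rw [Matrix.mulVecLin_add]
  refine le_trans ?_ (Submodule.finrank_add_le_finrank_add_finrank _ _)
  apply Submodule.finrank_mono
  rintro _ ⟨x, rfl⟩
  rw [LinearMap.add_apply]
  exact Submodule.add_mem_sup ⟨x, rfl⟩ ⟨x, rfl⟩

theorem rank_sum_le {d : ℕ} (s : Finset ℕ) (f : ℕ → Mt d) :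
    (∑ i ∈ s, f i).rank ≤ ∑ i ∈ s, (f i).rank := by
  classical
  induction s using Finset.induction_on with
  | empty => simp
  | insert a s ha ih =>
    rw [Finset.sum_insert ha, Finset.sum_insert ha]
    exact (rank_add_le' _ _).trans (Nat.add_le_add_left ih _)

theorem tr_hh_le {d n : ℕ} (lam : ℝ) (hl : 0 ≤ lam) (f : ℕ → Mt d) (hf : ∀ i < n, IsPr (f i)) :
    tr (hh lam (Qs f n)) ≤ ∑ i ∈ Finset.range n, tr (f i) := by
  have hQ : (Qs f n).PosSemidef := Qs_psd hf
  refine (tr_le_rank _ (hh_psd hl hQ) (hh_le_one hl hQ)).trans ?_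
  have h1 : (hh lam (Qs f n)).rank ≤ ∑ i ∈ Finset.range n, (f i).rank := by
    rw [hh_eq hl hQ, ← Matrix.mul_smul]
    exact (Matrix.rank_mul_le_left _ _).trans (rank_sum_le _ _)
  calc ((hh lam (Qs f n)).rank : ℝ) ≤ ((∑ i ∈ Finset.range n, (f i).rank : ℕ) : ℝ) := by
        exact_mod_cast h1
    _ = ∑ i ∈ Finset.range n, tr (f i) := by
        rw [Nat.cast_sum]
        exact Finset.sum_congr rfl fun i hi => (pr_tr_rank (hf i (Finset.mem_range.1 hi))).symm

end Pool.Agent.W661.RC.DEC
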