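import Pool.Agent.W661.RC.Stm2
import Pool.Agent.W683.RC.Bas

/-! Project RC, part DEC: the piece which belongs to a very good choice. -/

set_option autoImplicit false

namespace Pool.Agent.W661.RC.DEC

open Matrix Filter Topology Pool.Agent.W661.RC Pool.Agent.W683.RC
open scoped ComplexOrder

theorem piece (h2 : Pic2P) (hI : IrrP) (hCo : CorP) {d k : ℕ} {C η δ : ℝ} (S : Stp d k C η δ)
    (lam e2 τ θ ζ1 δ1 : ℝ) (Q f : Mt d) (hη : 0 < η) (hη1 : η ≤ 1 / 2048) (hC1 : 1 ≤ C)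
    (hl : 1 ≤ lam) (hQ : Q.PosSemidef) (he2 : 0 ≤ e2) (hτ : 0 < τ) (hτ1 : τ ≤ 1 / 200)
    (hδ1 : 0 ≤ δ1) (hr : rho k C η e2 ≤ τ) (hθ : 0 ≤ θ) (hθ1 : θ ≤ 1 / 1000)
    (hf : InF S lam Q f)
    (hmin : ∀ f' : Mt d, InF S lam Q f' → JJ lam Q f ≤ (1 + τ) * JJ lam Q f')
    (hV : VG S lam e2 δ1 θ Q f) (hζ : 0 < ζ1) (hζ8 : ζ1 ≤ 1 / 8)
    (ha : 32 * θ + 8 * τ ≤ ζ1 / 200) (hδ : 512 * δ1 ≤ ζ1 * δ) (hδ0 : 0 ≤ δ)
    (h20 : 20000 * (θ + 2 * τ) ≤ 1) :
    ∃ q' : Mt d, IsPr q' ∧ 0 < tr q' ∧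
      en S.u q' ≤ (32 * √(k * η) + ζ1) * (8 / 7) * tr q' ∧
      tr (S.D * q') ≤ δ / 4 * tr q' ∧ Iso S.u (1 / (2048 * C)) q' ∧
      hs (gg lam Q * f - q') ≤ (6300 * (θ + 2 * τ) + 33 / 10 * ζ1) * tr f ∧
      (1 - ζ1) * (1 - 2000 * (θ + 2 * τ)) * tr f ≤ tr q' := by
  obtain ⟨v1, v2, v3, v4, v5, v6⟩ := hV
  have hr0 : 0 ≤ rho k C η e2 := Real.sqrt_nonneg _
  have hl0 : 0 ≤ lam := by linarith
  have h64 : 64 * δ1 ≤ δ := by nlinarith
  obtain ⟨q, q1, q2, q3, q4, q5, q6, q7⟩ := h2 d k C η δ S lam e2 τ δ1 θ Q f hη hC1 hl hQ he2 hτ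
    (by linarith) hδ1 h64 (by linarith) hθ hθ1 hf hmin v1 v2 v3 v4 v5 v6
  have hq0 := q1.nz
  have hf0 := hf.nz
  have hirr := hI d k C η δ S lam (32 * θ + 8 * τ) (32 * δ1) (32 * θ + 8 * rho k C η e2 + 4 * τ)
    ζ1 Q q hη hη1 hC1 hl hQ q1.pr hq0 hζ ha (by linarith) (by linarith) hδ0
    (q2.trans (by
      apply mul_le_mul_of_nonneg_right _ hq0.le
      linarith)) q3 q4 (by
      intro f' hf'
      have h3 := q5 f' hf'
      have h4 : tr q ≤ JJ lam Q q := by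
        unfold JJ
        have := tr_mul_pr_nonneg (hh_psd hl0 hQ) q1.pr
        linarith
      have h5 : 1 + 32 * θ + 8 * rho k C η e2 + 4 * τ
          = 1 + (32 * θ + 8 * rho k C η e2 + 4 * τ) := by ring
      rw [h5] at h3
      exact h4.trans h3)
  have he1 : 0 < 1 / (2048 * C) := by positivity
  have he1' : 1 / (2048 * C) ≤ 1 := by
    rw [div_le_one (by positivity)]
    linarith
  obtain ⟨q', p1, p2, p3, p4, p5⟩ := hCo d k S.u (1 / (2048 * C)) ζ1 q S.hu q1.pr hq0 he1 hζ hζ8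
    hirr
  have hle : Le q' q := pr_le p1 q1.pr p2
  have htr : tr q - tr q' ≤ ζ1 * tr q := by
    rw [← tr_sub]
    exact p3
  have htr2 : (1 - ζ1) * tr q ≤ tr q' := by linarith
  have htr3 : tr q ≤ 8 / 7 * tr q' := by nlinarith
  have hq'0 : 0 < tr q' := by nlinarith
  have hsq : 0 ≤ √(k * η) := Real.sqrt_nonneg _
  have hfq := pr_abs_tr_sub q1.pr hf.pr
  rw [abs_le] at hfq
  have hθτ : 0 ≤ θ + 2 * τ := by linarith
  have q6' : hs (q - f) ≤ 2000 * (θ + 2 * τ) * tr f := by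
    refine q6.trans (mul_le_mul_of_nonneg_right ?_ hf0.le)
    linarith
  have q7' : tr (hh lam Q * f) ≤ 100 * (θ + 2 * τ) * tr f := by
    refine q7.trans (mul_le_mul_of_nonneg_right ?_ hf0.le)
    linarith
  have h11 : tr q ≤ 11 / 10 * tr f := by nlinarith [hfq.1, hfq.2]
  refine ⟨q', p1, hq'0, ?_, ?_, p5, ?_, ?_⟩
  · have h3 := q1.inv
    have h4 : en S.u q' ≤ (32 * √(k * η) + ζ1) * tr q := by
      have h5 : 1 / (2048 * C) * ζ1 * tr q ≤ ζ1 * tr q := by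
        apply mul_le_mul_of_nonneg_right _ hq0.le
        nlinarith
      linarith
    calc en S.u q' ≤ (32 * √(k * η) + ζ1) * tr q := h4
      _ ≤ (32 * √(k * η) + ζ1) * (8 / 7 * tr q') :=
          mul_le_mul_of_nonneg_left htr3 (by positivity)
      _ = _ := by ring
  · have h3 : tr (S.D * q') ≤ tr (S.D * q) := Le_mul_tr hle S.hD
    have h4 : 32 * δ1 * tr q ≤ δ / 128 * tr q := by
      apply mul_le_mul_of_nonneg_right _ hq0.le
      nlinarith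
    have h5 : δ / 128 * tr q ≤ δ / 128 * (8 / 7 * tr q') :=
      mul_le_mul_of_nonneg_left htr3 (by positivity)
    have h6 : 0 ≤ δ * tr q' := by positivity
    linarith
  · have e1 : gg lam Q * f - q' = -(hh lam Q * f) + (f - q) + (q - q') := by
      unfold hh
      rw [Matrix.sub_mul, Matrix.one_mul]
      abel
    rw [e1]
    refine (hs_add3_le _ _ _).trans ?_
    rw [hs_neg]
    have h3 : hs (hh lam Q * f) ≤ 100 * (θ + 2 * τ) * tr f :=
      (hs_mul_pr_le (hh_psd hl0 hQ) (hh_le_one hl0 hQ) hf.pr).trans q7'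
    have h4 : hs (f - q) ≤ 2000 * (θ + 2 * τ) * tr f := by
      rw [hs_sub_comm]
      exact q6'
    have h5 : hs (q - q') ≤ ζ1 * tr q := by
      have h6 : IsPr (q - q') := pr_sub p1 q1.pr p2
      rw [← pr_tr_eq_hs h6]
      exact p3
    have h7 : ζ1 * tr q ≤ ζ1 * (11 / 10 * tr f) := mul_le_mul_of_nonneg_left h11 hζ.le
    linarith
  · have h3 : (1 - 2000 * (θ + 2 * τ)) * tr f ≤ tr q := by
      linarith [hfq.1, hfq.2]
    have h4 : (1 - ζ1) * ((1 - 2000 * (θ + 2 * τ)) * tr f) ≤ (1 - ζ1) * tr q :=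
      mul_le_mul_of_nonneg_left h3 (by linarith)
    linarith

end Pool.Agent.W661.RC.DEC
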