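import Mathlib

/-! Project RC, part DEC: numbers. -/

set_option autoImplicit false

namespace Pool.Agent.W661.RC.DEC

theorem nums (ζ ζ1 θ τ c4 m : ℝ) (h0 : 0 < ζ) (h1 : ζ ≤ 1) (e1 : ζ1 = ζ / 40)
    (e2 : θ = ζ1 / 10 ^ 5) (e3 : τ = θ * ζ / 10 ^ 4) (e4 : c4 = ζ / 100)
    (hm : 10 ^ 4 / (θ * ζ) + 2 ≤ m) :
    0 < ζ1 ∧ ζ1 ≤ 1 / 8 ∧ 0 < θ ∧ θ ≤ 1 / 1000 ∧ 0 < τ ∧ τ ≤ 1 / 200 ∧ 0 < c4 ∧
    32 * θ + 8 * τ ≤ ζ1 / 200 ∧ 20000 * (θ + 2 * τ) ≤ 1 ∧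
    (1 + 2 / θ) * τ + 1 / θ * (40 / m + 216 * τ) ≤ ζ / 25 ∧
    0 ≤ 40 / (m - 1) + 218 * τ ∧ 40 / (m - 1) + 218 * τ ≤ θ * ζ / 25 ∧
    200 * (θ * ζ / 25) ≤ c4 ∧
    (6300 * (θ + 2 * τ) + 33 / 10 * ζ1) * 2 ≤ ζ ∧
    1 / ζ ≤ m ∧
    1 - ζ ≤ (1 - ζ1) * (1 - 2000 * (θ + 2 * τ)) * (1 - ζ / 100 - 4 * (θ * ζ / 25) - ζ / 25) := by
  have p1 : 0 < ζ1 := by rw [e1]; positivity
  have p2 : 0 < θ := by rw [e2]; positivity
  have p3 : 0 < τ := by rw [e3]; positivity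
  have p4 : 0 < c4 := by rw [e4]; positivity
  have q1 : θ = ζ / (4 * 10 ^ 6) := by rw [e2, e1]; ring
  have q2 : θ ≤ 1 / (4 * 10 ^ 6) := by
    rw [q1]
    apply div_le_div_of_nonneg_right h1
    positivity
  have q3 : θ * ζ ≤ θ := by nlinarith
  have q4 : 0 < θ * ζ := by positivity
  have q5 : τ ≤ θ / 10 ^ 4 := by rw [e3]; linarith
  have m1 : 10 ^ 4 / (θ * ζ) ≤ m - 1 := by linarith
  have m0 : 0 < 10 ^ 4 / (θ * ζ) := by positivity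
  have m2 : 40 / (m - 1) ≤ 40 / (10 ^ 4 / (θ * ζ)) :=
    div_le_div_of_nonneg_left (by norm_num) m0 m1
  have m3 : 40 / m ≤ 40 / (10 ^ 4 / (θ * ζ)) :=
    div_le_div_of_nonneg_left (by norm_num) m0 (by linarith)
  have m4 : 40 / (10 ^ 4 / (θ * ζ)) = 4 / 1000 * (θ * ζ) := by
    field_simp
    norm_num
  rw [m4] at m2 m3
  have m5 : 0 ≤ 40 / (m - 1) := by
    apply div_nonneg (by norm_num)
    linarith
  have q6 : 40 / (m - 1) + 218 * τ ≤ θ * ζ / 25 := by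
    rw [e3]
    linarith
  refine ⟨p1, by linarith, p2, by linarith, p3, by linarith, p4, by linarith, by linarith, ?_,
    by linarith, q6, by nlinarith, by linarith, ?_, ?_⟩
  · have r1 : (1 + 2 / θ) * τ + 1 / θ * (40 / m + 216 * τ)
        = τ + 1 / θ * (40 / m) + 218 * (τ / θ) := by
      field_simp
      ring
    have r2 : τ / θ = ζ / 10 ^ 4 := by
      rw [e3]
      field_simp
    have r3 : 1 / θ * (40 / m) ≤ 4 / 1000 * ζ := by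
      have : 1 / θ * (40 / m) ≤ 1 / θ * (4 / 1000 * (θ * ζ)) :=
        mul_le_mul_of_nonneg_left m3 (by positivity)
      refine this.trans (le_of_eq ?_)
      field_simp
    rw [r1, r2]
    linarith
  · have r1 : 1 / ζ ≤ 10 ^ 4 / (θ * ζ) := by
      rw [div_le_div_iff₀ h0 q4]
      nlinarith
    linarith
  · have r1 : 0 ≤ 2000 * (θ + 2 * τ) := by positivity
    have r2 : 2000 * (θ + 2 * τ) ≤ ζ / 100 := by
      linarith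
    have r3 : 4 * (θ * ζ / 25) ≤ ζ / 100 := by nlinarith
    have r4 : 0 ≤ 4 * (θ * ζ / 25) := by positivity
    have s1 : 1 - ζ1 - 2000 * (θ + 2 * τ) ≤ (1 - ζ1) * (1 - 2000 * (θ + 2 * τ)) := by
      nlinarith [mul_nonneg p1.le r1]
    have s2 : 1 - ζ / 25 ≤ (1 - ζ1) * (1 - 2000 * (θ + 2 * τ)) := by linarith
    have s3 : (1 - ζ / 25) * (1 - ζ / 100 - 4 * (θ * ζ / 25) - ζ / 25)
        ≤ (1 - ζ1) * (1 - 2000 * (θ + 2 * τ)) * (1 - ζ / 100 - 4 * (θ * ζ / 25) - ζ / 25) :=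
      mul_le_mul_of_nonneg_right s2 (by linarith)
    have s4 : 1 - ζ ≤ (1 - ζ / 25) * (1 - ζ / 100 - 4 * (θ * ζ / 25) - ζ / 25) := by
      have s5 : (1 - ζ / 25) * (1 - 2 * ζ / 100 - ζ / 25)
        ≤ (1 - ζ / 25) * (1 - ζ / 100 - 4 * (θ * ζ / 25) - ζ / 25) :=
        mul_le_mul_of_nonneg_left (by linarith) (by linarith)
      have s6 : 1 - ζ ≤ (1 - ζ / 25) * (1 - 2 * ζ / 100 - ζ / 25) := by nlinarith
      linarith
    linarith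

end Pool.Agent.W661.RC.DEC
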