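import Pool.Agent.W661.RC.DecA
import Pool.Agent.W661.RC.DecB
import Pool.Agent.W661.RC.DecC
import Pool.Agent.W661.RC.DecD

/-! Project RC, part DEC: the decomposition. -/

set_option autoImplicit false

namespace Pool.Agent.W661.RC.DEC

open Matrix Filter Topology Pool.Agent.W661.RC Pool.Agent.W683.RC
open scoped ComplexOrder

theorem Dec_mono {d k : ℕ} {C η δ : ℝ} {S : Stp d k C η δ} {ζ ζ' : ℝ} {n : ℕ}
    {a q : Fin n → Mt d} (h : Dec S ζ n a q) (hζ : ζ ≤ ζ') : Dec S ζ' n a q where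
  pr := h.pr
  nz := h.nz
  inv := fun i => (h.inv i).trans (mul_le_mul_of_nonneg_right hζ (h.nz i).le)
  bad := h.bad
  iso := h.iso
  sum := Le_trans h.sum (Le_smul_right Matrix.PosSemidef.one (by linarith))
  near := h.near.trans (mul_le_mul_of_nonneg_right hζ (Nat.cast_nonneg _))
  tot := le_trans (mul_le_mul_of_nonneg_right (by linarith) (Nat.cast_nonneg _)) h.tot

theorem main1 (hG : GreP) (hA : ResAP) (hM : MasP) (h2 : Pic2P) (hI : IrrP) (hC : CorP)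
    (hV : CovP) (k : ℕ) (C ζ : ℝ) (hC1 : 1 ≤ C) (hζ : 0 < ζ) (hζle : ζ ≤ 1) :
    ∃ η0 : ℝ, 0 < η0 ∧ ∀ η : ℝ, 0 < η → η ≤ η0 → ∀ δ : ℝ, 0 < δ → ∃ δ1 : ℝ, 0 < δ1 ∧
    ∀ (d : ℕ) (S : Stp d k C η δ), 0 < d → tr S.D ≤ δ1 * d →
      ∃ (n : ℕ) (a q : Fin n → Mt d), Dec S ζ n a q := by
  classical
  obtain ⟨ζ1, eζ1⟩ : ∃ x : ℝ, x = ζ / 40 := ⟨_, rfl⟩
  obtain ⟨θ, eθ⟩ : ∃ x : ℝ, x = ζ1 / 10 ^ 5 := ⟨_, rfl⟩
  obtain ⟨τ, eτ⟩ : ∃ x : ℝ, x = θ * ζ / 10 ^ 4 := ⟨_, rfl⟩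
  obtain ⟨c4, ec4⟩ : ∃ x : ℝ, x = ζ / 100 := ⟨_, rfl⟩
  obtain ⟨M, hMge⟩ := exists_nat_ge (10 ^ 4 / (θ * ζ) + 2)
  obtain ⟨z1, z2, z3, z4, z5, z6, z7, z8, z9, z10, z11, z12, z13, z14, z15, z16⟩ :=
    nums ζ ζ1 θ τ c4 M hζ hζle eζ1 eθ eτ ec4 hMge
  obtain ⟨e2, he2, η0, hη0, hpar⟩ := params k C τ ζ c4 M z5 hζ z7
  refine ⟨η0, hη0, fun η hη hηle δ hδ => ?_⟩
  obtain ⟨r1, r2, r3, r4, r5⟩ := hpar η hη hηle
  obtain ⟨δ', eδ'⟩ : ∃ x : ℝ, x = δ * ζ1 / 1024 := ⟨_, rfl⟩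
  have hδ' : 0 < δ' := by rw [eδ']; positivity
  refine ⟨min (τ * δ' / 12) (δ * c4 / 16), by positivity, fun d S hd hSD => ?_⟩
  obtain ⟨δ1, eδ1⟩ : ∃ x : ℝ, x = min (τ * δ' / 12) (δ * c4 / 16) := ⟨_, rfl⟩
  rw [← eδ1] at hSD
  have hδ1 : 0 < δ1 := by rw [eδ1]; positivity
  have hδ1a : δ1 ≤ τ * δ' / 12 := by rw [eδ1]; exact min_le_left _ _
  have hδ1b : δ1 ≤ δ * c4 / 16 := by rw [eδ1]; exact min_le_right _ _
  have hd0 : (0 : ℝ) < (d : ℝ) := by exact_mod_cast hd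
  have hM2 : 2 ≤ M := by
    have h0 : 0 ≤ 10 ^ 4 / (θ * ζ) := by positivity
    have : (2 : ℝ) ≤ (M : ℝ) := by linarith
    exact_mod_cast this
  have hlamM : (M : ℝ) ≤ 2 ^ M := by
    exact_mod_cast (Nat.lt_two_pow_self (n := M)).le
  have hM2' : (2 : ℝ) ≤ (M : ℝ) := by exact_mod_cast hM2
  have hl2 : (2 : ℝ) ≤ 2 ^ M := by linarith
  have hl1 : (1 : ℝ) ≤ 2 ^ M := by linarith
  have hl0 : (0 : ℝ) ≤ 2 ^ M := by linarith
  obtain ⟨n, f, hgr, hemp, hsum, -⟩ := hG d k C η δ S (2 ^ M) τ hl2 z5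
  have hpr : ∀ i < n, IsPr (f i) := fun i hi => (hgr i hi).1.pr
  have hpos : ∀ i < n, 0 ≤ tr (f i) := fun i hi => (hgr i hi).1.nz.le
  have hQ : ∀ i ≤ n, (Qs f i).PosSemidef := fun i hi =>
    Qs_psd fun j hj => hpr j (lt_of_lt_of_le hj hi)
  -- MAS
  obtain ⟨B3, eB3⟩ : ∃ x : ℝ, x = (1000 * (2 ^ M + 1) / e2 * √(k * η) + 6 * δ1 / δ') * d :=
    ⟨_, rfl⟩
  have hB3 : B3 ≤ τ * d := by
    rw [eB3]
    apply mul_le_mul_of_nonneg_right _ hd0.le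
    have : 6 * δ1 / δ' ≤ τ / 2 := by
      rw [div_le_iff₀ hδ']
      linarith
    linarith
  have h64 : 64 * δ' ≤ δ := by
    rw [eδ']
    nlinarith
  obtain ⟨m1, m2, m3⟩ := hM d k C η δ S M n e2 τ δ' δ1 θ B3 f hM2 hη hC1 he2 z5 (by linarith)
    hδ' h64 (by linarith) z3 hgr hsum hSD eB3
  -- mass of the choices which are not very good
  have hbad : ∑ i ∈ (Finset.range n).filter (fun i => ¬ VG S (2 ^ M) e2 δ' θ (Qs f i) (f i)),
      tr (f i) ≤ ζ / 25 * d := by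
    refine le_trans (le_of_eq ?_) (m1.trans ?_)
    · congr!
    · have h3 : (1 + 2 / θ) * B3 ≤ (1 + 2 / θ) * (τ * d) :=
        mul_le_mul_of_nonneg_left hB3 (by positivity)
      have h4 : 1 / θ * (40 / M + 4 * (48 * rho k C η e2 + 6 * τ))
          ≤ 1 / θ * (40 / M + 216 * τ) := by
        apply mul_le_mul_of_nonneg_left _ (by positivity)
        linarith
      have h5 : 1 / θ * (40 / M + 4 * (48 * rho k C η e2 + 6 * τ)) * d
          ≤ 1 / θ * (40 / M + 216 * τ) * d := mul_le_mul_of_nonneg_right h4 hd0.le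
      have h6 : ((1 + 2 / θ) * τ + 1 / θ * (40 / M + 216 * τ)) * d ≤ ζ / 25 * d :=
        mul_le_mul_of_nonneg_right z10 hd0.le
      linarith
  have hgh : tr (gg (2 ^ M) (Qs f n) * hh (2 ^ M) (Qs f n)) ≤ (θ * ζ / 25) * d := by
    refine m2.trans ?_
    have h4 : (40 / ((M : ℝ) - 1) + 4 * (48 * rho k C η e2 + 6 * τ)) * d
        ≤ (40 / ((M : ℝ) - 1) + 216 * τ) * d :=
      mul_le_mul_of_nonneg_right (by linarith) hd0.le
    have h6 : (40 / ((M : ℝ) - 1) + 218 * τ) * d ≤ (θ * ζ / 25) * d :=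
      mul_le_mul_of_nonneg_right z12 hd0.le
    linarith
  have hsq : 0 ≤ √(k * η) := Real.sqrt_nonneg _
  have hcov := hV d k C η δ S (2 ^ M) (192 * 2 ^ M * √(k * η)) (θ * ζ / 25) δ1 c4 (Qs f n)
    hd hη r2 hC1 hl1 (hQ n le_rfl) (by positivity) (by positivity) hδ1.le z7 hemp m3 hgh hSD r5 z13
    (by linarith)
  have htot : (1 - c4 - 4 * (θ * ζ / 25)) * d ≤ ∑ i ∈ Finset.range n, tr (f i) :=
    hcov.trans (tr_hh_le _ hl0 f hpr)
  -- the pieces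
  obtain ⟨V, eV⟩ : ∃ V : Finset ℕ, V = (Finset.range n).filter
    (fun i => VG S (2 ^ M) e2 δ' θ (Qs f i) (f i)) := ⟨_, rfl⟩
  have hVn : ∀ i ∈ V, i < n := fun i hi => by
    rw [eV] at hi
    exact Finset.mem_range.1 (Finset.mem_filter.1 hi).1
  have hVV : ∀ i ∈ V, VG S (2 ^ M) e2 δ' θ (Qs f i) (f i) := fun i hi => by
    rw [eV] at hi
    exact (Finset.mem_filter.1 hi).2
  have hVsum : (1 - ζ / 100 - 4 * (θ * ζ / 25) - ζ / 25) * d ≤ ∑ i ∈ V, tr (f i) := by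
    have h3 := Finset.sum_filter_add_sum_filter_not (Finset.range n)
      (fun i => VG S (2 ^ M) e2 δ' θ (Qs f i) (f i)) (fun i => tr (f i))
    rw [← eV] at h3
    rw [ec4] at htot
    linarith
  have hVle : ∑ i ∈ V, tr (f i) ≤ 2 * d := by
    refine le_trans (Finset.sum_le_sum_of_subset_of_nonneg (fun i hi =>
      Finset.mem_range.2 (hVn i hi)) fun i hi _ => hpos i (Finset.mem_range.1 hi)) hsum
  have hpc : ∀ i : V, ∃ q' : Mt d, IsPr q' ∧ 0 < tr q' ∧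
      en S.u q' ≤ (32 * √(k * η) + ζ1) * (8 / 7) * tr q' ∧
      tr (S.D * q') ≤ δ / 4 * tr q' ∧ Iso S.u (1 / (2048 * C)) q' ∧
      hs (gg (2 ^ M) (Qs f i) * f i - q') ≤ (6300 * (θ + 2 * τ) + 33 / 10 * ζ1) * tr (f i) ∧
      (1 - ζ1) * (1 - 2000 * (θ + 2 * τ)) * tr (f i) ≤ tr q' := by
    rintro ⟨i, hi⟩
    have hin := hVn i hi
    exact piece h2 hI hC S (2 ^ M) e2 τ θ ζ1 δ' (Qs f i) (f i) hη r2 hC1 hl1 (hQ i hin.le) he2.le
      z5 z6 hδ'.le r1 z3.le z4 (hgr i hin).1 (hgr i hin).2 (hVV i hi) z1 z2 z8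
      (by rw [eδ']; nlinarith) hδ.le z9
  choose q' g1 g2 g3 g4 g5 g6 g7 using hpc
  let e := V.equivFin.symm
  have hre : ∀ F : V → ℝ, ∑ j, F (e j) = ∑ i : V, F i := fun F => Equiv.sum_comp e F
  have hre2 : ∀ F : ℕ → ℝ, ∑ i : V, F i = ∑ i ∈ V, F i := fun F => Finset.sum_coe_sort V F
  refine ⟨V.card, fun j => gg (2 ^ M) (Qs f (e j)) * f (e j), fun j => q' (e j), ?_⟩
  constructor
  · intro j
    exact g1 _
  · intro j
    exact g2 _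
  · intro j
    refine (g3 (e j)).trans (mul_le_mul_of_nonneg_right ?_ (g2 _).le)
    rw [eζ1]
    linarith
  · intro j
    exact g4 _
  · intro j
    exact g5 _
  · -- sum
    have h3 : ∑ j, (gg (2 ^ M) (Qs f (e j)) * f (e j)) * (gg (2 ^ M) (Qs f (e j)) * f (e j))ᴴ
        = ∑ i ∈ V, gg (2 ^ M) (Qs f i) * f i * gg (2 ^ M) (Qs f i) := by
      rw [Equiv.sum_comp e (fun i : V => (gg (2 ^ M) (Qs f i) * f i) *
        (gg (2 ^ M) (Qs f i) * f i)ᴴ), Finset.sum_coe_sort V (fun i => (gg (2 ^ M) (Qs f i) * f i) *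
        (gg (2 ^ M) (Qs f i) * f i)ᴴ)]
      refine Finset.sum_congr rfl fun i hi => ?_
      have hin := hVn i hi
      rw [Matrix.conjTranspose_mul, (hpr i hin).1, gg_herm hl0 (hQ i hin.le), Matrix.mul_assoc,
        ← Matrix.mul_assoc (f i) (f i), (hpr i hin).2, ← Matrix.mul_assoc]
    rw [h3]
    have h4 : Le (∑ i ∈ V, gg (2 ^ M) (Qs f i) * f i * gg (2 ^ M) (Qs f i))
        (∑ i ∈ Finset.range n, gg (2 ^ M) (Qs f i) * f i * gg (2 ^ M) (Qs f i)) := by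
      unfold Le
      have hsub : V ⊆ Finset.range n := fun i hi => Finset.mem_range.2 (hVn i hi)
      rw [← Finset.sum_sdiff hsub, add_sub_cancel_right]
      refine Matrix.posSemidef_sum _ fun i hi => ?_
      have hin := Finset.mem_range.1 (Finset.mem_sdiff.1 hi).1
      have := (pr_psd (hpr i hin)).conjTranspose_mul_mul_same (gg (2 ^ M) (Qs f i))
      rwa [gg_herm hl0 (hQ i hin.le)] at this
    refine Le_trans h4 (Le_trans (hA d n f (2 ^ M) hl1 hpr) ?_)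
    have h5 : Le (1 - gg (2 ^ M) (Qs f n)) (1 : Mt d) := by
      unfold Le
      rw [sub_sub_cancel]
      exact gg_psd hl0 (hQ n le_rfl)
    have h6 : (0 : ℝ) ≤ 1 + 1 / 2 ^ M := by positivity
    refine Le_trans (Le_smul h5 h6) (Le_smul_right Matrix.PosSemidef.one ?_)
    have h7 : 1 / (2 : ℝ) ^ M ≤ ζ := by
      rw [div_le_iff₀ (by positivity)]
      rw [div_le_iff₀ hζ] at z15
      nlinarith
    linarith
  · -- near
    have h3 : ∀ j, hs (gg (2 ^ M) (Qs f (e j)) * f (e j) - q' (e j))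
        ≤ (6300 * (θ + 2 * τ) + 33 / 10 * ζ1) * tr (f (e j)) := fun j => g6 _
    refine (Finset.sum_le_sum fun j _ => h3 j).trans ?_
    rw [← Finset.mul_sum, hre (fun i : V => tr (f i)), hre2 (fun i => tr (f i))]
    have h4 : (6300 * (θ + 2 * τ) + 33 / 10 * ζ1) * ∑ i ∈ V, tr (f i)
        ≤ (6300 * (θ + 2 * τ) + 33 / 10 * ζ1) * (2 * d) :=
      mul_le_mul_of_nonneg_left hVle (by positivity)
    have h5 : (6300 * (θ + 2 * τ) + 33 / 10 * ζ1) * 2 * d ≤ ζ * d :=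
      mul_le_mul_of_nonneg_right z14 hd0.le
    linarith
  · -- tot
    have h3 : ∀ j, (1 - ζ1) * (1 - 2000 * (θ + 2 * τ)) * tr (f (e j)) ≤ tr (q' (e j)) :=
      fun j => g7 _
    refine le_trans ?_ (Finset.sum_le_sum fun j _ => h3 j)
    rw [← Finset.mul_sum, hre (fun i : V => tr (f i)), hre2 (fun i => tr (f i))]
    have h4 : 0 ≤ (1 - ζ1) * (1 - 2000 * (θ + 2 * τ)) := by
      apply mul_nonneg <;> linarith
    have h5 := mul_le_mul_of_nonneg_left hVsum h4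
    have h6 := mul_le_mul_of_nonneg_right z16 hd0.le
    linarith

theorem main (hG : GreP) (hA : ResAP) (hM : MasP) (h2 : Pic2P) (hI : IrrP) (hC : CorP)
    (hV : CovP) : DecP := by
  intro k C ζ hC1 hζ
  obtain ⟨η0, hη0, h⟩ := main1 hG hA hM h2 hI hC hV k C (min ζ 1) hC1 (by positivity)
    (min_le_right _ _)
  refine ⟨η0, hη0, fun η hη hη' δ hδ => ?_⟩
  obtain ⟨δ1, hδ1, h3⟩ := h η hη hη' δ hδ
  refine ⟨δ1, hδ1, fun d S hd hSD => ?_⟩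
  obtain ⟨n, a, q, h4⟩ := h3 d S hd hSD
  exact ⟨n, a, q, Dec_mono h4 (min_le_left _ _)⟩

end Pool.Agent.W661.RC.DEC
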