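import Pool.Agent.W661.RC.Stm2

/-! Project RC, part DEC: choice of parameters. -/

set_option autoImplicit false

namespace Pool.Agent.W661.RC.DEC

open Matrix Filter Topology Pool.Agent.W661.RC
open scoped ComplexOrder

theorem rho_small (k : ℕ) (C τ : ℝ) (hτ : 0 < τ) :
    ∃ r : ℝ, 0 < r ∧ ∀ η e2 : ℝ, 0 < η → η < r → 0 < e2 → e2 < r → rho k C η e2 < τ := by
  have hc : Continuous fun p : ℝ × ℝ => rho k C p.1 p.2 := by
    unfold rho
    fun_prop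
  have h0 : rho k C 0 0 = 0 := by
    unfold rho
    simp
  have h1 : ∀ᶠ p : ℝ × ℝ in 𝓝 (0, 0), rho k C p.1 p.2 < τ := by
    have := hc.tendsto (0, 0)
    rw [h0] at this
    exact this.eventually (gt_mem_nhds hτ)
  rw [Metric.eventually_nhds_iff] at h1
  obtain ⟨r, hr, h⟩ := h1
  refine ⟨r, hr, fun η e2 h2 h3 h4 h5 => ?_⟩
  apply @h (η, e2)
  rw [Prod.dist_eq]
  simp only [Real.dist_eq, sub_zero, abs_of_pos h2, abs_of_pos h4]
  exact max_lt h3 h5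

theorem cont_small (F : ℝ → ℝ) (hF : Continuous F) (h0 : F 0 = 0) (c : ℝ) (hc : 0 < c) :
    ∀ᶠ η in 𝓝 (0 : ℝ), F η < c := by
  have := hF.tendsto 0
  rw [h0] at this
  exact this.eventually (gt_mem_nhds hc)

/-- All the conditions on `M`, `e2` and `η`. -/
theorem params (k : ℕ) (C τ ζ c4 : ℝ) (M : ℕ) (hτ : 0 < τ) (hζ : 0 < ζ) (hc4 : 0 < c4) :
    ∃ e2 : ℝ, 0 < e2 ∧ ∃ η0 : ℝ, 0 < η0 ∧ ∀ η : ℝ, 0 < η → η ≤ η0 →
      rho k C η e2 ≤ τ ∧ η ≤ 1 / 2048 ∧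
      1000 * (2 ^ M + 1) / e2 * √(k * η) ≤ τ / 2 ∧ 32 * √(k * η) ≤ ζ / 4 ∧
      2048 * C * (16 * √(k * (192 * 2 ^ M * √(k * η)))) ≤ c4 := by
  obtain ⟨r, hr, h⟩ := rho_small k C τ hτ
  have h1 : ∀ᶠ η in 𝓝 (0 : ℝ), 1000 * (2 ^ M + 1) / (r / 2) * √(k * η) < τ / 2 :=
    cont_small _ (by fun_prop) (by simp) _ (by positivity)
  have h2 : ∀ᶠ η in 𝓝 (0 : ℝ), 32 * √(k * η) < ζ / 4 :=
    cont_small _ (by fun_prop) (by simp) _ (by positivity)
  have h3 : ∀ᶠ η in 𝓝 (0 : ℝ), 2048 * C * (16 * √(k * (192 * 2 ^ M * √(k * η)))) < c4 :=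
    cont_small _ (by fun_prop) (by simp) _ (by positivity)
  have h4 := (h1.and h2).and h3
  rw [Metric.eventually_nhds_iff] at h4
  obtain ⟨s, hs, h5⟩ := h4
  refine ⟨r / 2, by positivity, min (min (r / 2) (s / 2)) (1 / 2048), by positivity, ?_⟩
  intro η hη hη0
  have h6 : η ≤ r / 2 := hη0.trans ((min_le_left _ _).trans (min_le_left _ _))
  have h7 : η ≤ s / 2 := hη0.trans ((min_le_left _ _).trans (min_le_right _ _))
  have h8 : η ≤ 1 / 2048 := hη0.trans (min_le_right _ _)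
  have h9 := @h5 η (by rw [Real.dist_eq, sub_zero, abs_of_pos hη]; linarith)
  exact ⟨(h η (r / 2) hη (by linarith) (by linarith) (by linarith)).le, h8, h9.1.1.le, h9.1.2.le,
    h9.2.le⟩

end Pool.Agent.W661.RC.DEC
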