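import Mathlib

/-!
# Relative commutants of Kazhdan groups in matrix ultraproducts: definitions

All norms are squared, unnormalised Hilbert-Schmidt norms `hs`.
-/

set_option autoImplicit false

namespace Pool.Agent.W661.RC

open Matrix
open scoped ComplexOrder

noncomputable section

/-- Complex `d × d` matrices. -/
abbrev Mt (d : ℕ) := Matrix (Fin d) (Fin d) ℂ

/-- The squared Hilbert-Schmidt norm `Tr (x* x)` of a rectangular matrix. -/
def hs {m n : Type} [Fintype m] [Fintype n] (x : Matrix m n ℂ) : ℝ :=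
  ∑ i, ∑ j, ‖x i j‖ ^ 2

/-- Real part of the (unnormalised) trace. -/
def tr {n : Type} [Fintype n] (x : Matrix n n ℂ) : ℝ := (Matrix.trace x).re

/-- Orthogonal projections. -/
def IsPr {n : Type} [Fintype n] (p : Matrix n n ℂ) : Prop := pᴴ = p ∧ p * p = p

/-- The order `a ≤ b` of matrices: `b - a` is positive semidefinite. -/
def Le {n : Type} [Fintype n] (a b : Matrix n n ℂ) : Prop := (b - a).PosSemidef

/-- The energy `∑ ‖[u_s, x]‖²` of `x` for the matrices `u_s`. -/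
def en {d k : ℕ} (u : Fin k → Mt d) (x : Mt d) : ℝ := ∑ s, hs (u s * x - x * u s)

/-- The resolvent `(1 + lam Q)⁻¹`. -/
def gg {d : ℕ} (lam : ℝ) (Q : Mt d) : Mt d := (1 + (lam : ℂ) • Q)⁻¹

/-- The soft support projection `1 - (1 + lam Q)⁻¹` of `Q`. -/
def hh {d : ℕ} (lam : ℝ) (Q : Mt d) : Mt d := 1 - gg lam Q

/-- Partial sums `Q_i = ∑_{j < i} f_j`. -/
def Qs {d : ℕ} (f : ℕ → Mt d) (i : ℕ) : Mt d := ∑ j ∈ Finset.range i, f j

/-- Almost invariant system with a smoothing operator `Φ` (from property (T)); `D` measures the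
defect of multiplicativity. -/
structure Stp (d k : ℕ) (C η δ : ℝ) where
  u : Fin k → Mt d
  D : Mt d
  Φ : Mt d →ₗ[ℂ] Mt d
  hu : ∀ s, (u s)ᴴ * u s = 1
  hD : D.PosSemidef
  one : Φ 1 = 1
  pos : ∀ x : Mt d, x.PosSemidef → (Φ x).PosSemidef
  star : ∀ x : Mt d, Φ xᴴ = (Φ x)ᴴ
  trc : ∀ x y : Mt d, Matrix.trace (Φ x * y) = Matrix.trace (x * Φ y)
  ctr : ∀ x : Mt d, Le (xᴴ * x) 1 → Le ((Φ x)ᴴ * Φ x) 1
  hsle : ∀ x : Mt d, hs (Φ x) ≤ hs x
  smooth : ∀ x : Mt d, tr (D * (x * xᴴ + xᴴ * x)) ≤ δ * hs x →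
    en u (Φ x) ≤ η * hs x ∧ hs (Φ x - x) ≤ C * en u x + η * hs x

/-- The class of near-invariant projections with small overlap with `Q`. -/
structure InF {d k : ℕ} {C η δ : ℝ} (S : Stp d k C η δ) (lam : ℝ) (Q f : Mt d) : Prop where
  pr : IsPr f
  nz : 0 < tr f
  inv : en S.u f ≤ 32 * √(k * η) * tr f
  ov : tr (hh lam Q * f) ≤ 1 / 16 * tr f
  bd : 2 * tr (S.D * f) ≤ δ * tr f

/-- The functional which the greedy choice minimises. -/
def JJ {d : ℕ} (lam : ℝ) (Q f : Mt d) : ℝ := tr f + tr (hh lam Q * f)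

/-- `n` greedy near-minimal choices. -/
def Greedy {d k : ℕ} {C η δ : ℝ} (S : Stp d k C η δ) (lam e3 : ℝ) (n : ℕ) (f : ℕ → Mt d) : Prop :=
  ∀ i < n, InF S lam (Qs f i) (f i) ∧
    ∀ f' : Mt d, InF S lam (Qs f i) f' → JJ lam (Qs f i) (f i) ≤ (1 + e3) * JJ lam (Qs f i) f'

/-- Isoperimetric gap of a projection `q`. -/
def Iso {d k : ℕ} (u : Fin k → Mt d) (e1 : ℝ) (q : Mt d) : Prop :=
  ∀ z : Mt d, IsPr z → q * z = z → tr z ≤ 1 / 2 * tr q → e1 * tr z ≤ en u z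

/-- Spectral gap of a projection `q`. -/
def Gap {d k : ℕ} (u : Fin k → Mt d) (C2 ζ : ℝ) (q : Mt d) : Prop :=
  ∀ x : Mt d, q * x * q = x → ∃ m : ℂ, hs (x - m • q) ≤ C2 * (en u x + ζ * hs x)

end

end Pool.Agent.W661.RC
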