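import Pool.Agent.W661.RC.Stm3

set_option autoImplicit false

namespace Pool.Agent.W661.RC.Fin1

open Matrix Filter Topology Pool.Agent.W661.RC
open scoped ComplexOrder
open scoped Matrix.Norms.L2Operator

theorem unital (h2 : Re2P) (G : Type) [Group G] [Countable G] (S : Finset G) (𝒰 : Ultrafilter ℕ)
    (d : ℕ → ℕ) (π : G →* MU 𝒰 d) (hT : HasT G) (hS : Subgroup.closure (S : Set G) = ⊤)
    (hU : (𝒰 : Filter ℕ) ≤ cofinite) (hd : ∀ n, 0 < d n) (hπ : ∀ g, IsUn (π g)) :
    ∃ A : ∀ n, StarSubalgebra ℂ (Mt (d n)),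
      {y : MU 𝒰 d | ∀ g, y * π g = π g * y} =
        {y : MU 𝒰 d | ∃ a : BSeq d, (∀ n, (a : ∀ n, Mt (d n)) n ∈ A n) ∧ mkU 𝒰 d a = y} := by
  classical
  obtain ⟨g, -, hg⟩ := h2 G (S ∪ S.image (fun s => s⁻¹)) 𝒰 d π hT
    (by
      intro s hs
      rw [Finset.mem_union, Finset.mem_image] at hs ⊢
      rcases hs with hs | ⟨t, ht, rfl⟩
      · exact Or.inr ⟨s, hs, rfl⟩
      · exact Or.inl (by rwa [inv_inv]))
    (by
      rw [eq_top_iff, ← hS]
      exact Subgroup.closure_mono (by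
        intro s hs
        rw [Finset.mem_coe, Finset.mem_union]
        exact Or.inl hs)) hU hd hπ
  refine ⟨fun n => StarSubalgebra.centralizer ℂ
    {x : Mt (d n) | ∃ s ∈ S ∪ S.image (fun s => s⁻¹), x = (g s n : Mt (d n))}, ?_⟩
  rw [hg]
  ext y
  simp only [Set.mem_ofPred_eq]
  refine exists_congr fun a => and_congr_left fun _ => forall_congr' fun n => ?_
  rw [StarSubalgebra.mem_centralizer_iff]
  constructor
  · rintro h x ⟨s, hs, rfl⟩
    have h1 := h s hs
    refine ⟨h1.symm, ?_⟩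
    have u1 : star (g s n : Mt (d n)) * (g s n : Mt (d n)) = 1 :=
      Matrix.mem_unitaryGroup_iff'.1 (g s n).2
    have u2 : (g s n : Mt (d n)) * star (g s n : Mt (d n)) = 1 :=
      Matrix.mem_unitaryGroup_iff.1 (g s n).2
    calc star (g s n : Mt (d n)) * (a : ∀ n, Mt (d n)) n
        = star (g s n : Mt (d n)) * ((a : ∀ n, Mt (d n)) n * (g s n : Mt (d n))) *
            star (g s n : Mt (d n)) := by
          rw [Matrix.mul_assoc, Matrix.mul_assoc _ (g s n : Mt (d n)), u2, Matrix.mul_one]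
      _ = (star (g s n : Mt (d n)) * (g s n : Mt (d n))) * (a : ∀ n, Mt (d n)) n *
            star (g s n : Mt (d n)) := by
          rw [h1]
          simp only [Matrix.mul_assoc]
      _ = (a : ∀ n, Mt (d n)) n * star (g s n : Mt (d n)) := by
          rw [u1, Matrix.one_mul]
  · intro h s hs
    exact (h _ ⟨s, hs, rfl⟩).1.symm

end Pool.Agent.W661.RC.Fin1
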