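import Pool.Agent.W661.RC.Defs

/-!
# Statements of the parts of the project RC
-/

set_option autoImplicit false

namespace Pool.Agent.W661.RC

open Matrix
open scoped ComplexOrder

/-- LEV: a spectral projection of `0 ≤ x ≤ 1` at a well chosen level in `[a, b]`. -/
def LevP : Prop := ∀ (d k : ℕ) (u : Fin k → Mt d) (x : Mt d) (a b : ℝ),
  (∀ s, (u s)ᴴ * u s = 1) → x.PosSemidef → Le x 1 → 1 / 4 ≤ a → a < b → b ≤ 3 / 4 →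
  ∃ e : Mt d, IsPr e ∧ e * x = x * e ∧ Le ((a : ℂ) • e) x ∧
    Le ((1 - e) * x) ((b : ℂ) • (1 - e)) ∧
    en u e ≤ 2 * √k / (a * (b - a)) * √(hs x * en u x) ∧
    tr e ≤ (x.rank : ℝ) ∧
    ∀ f : Mt d, IsPr f → hs (e - f) ≤ 16 * hs (x - f)

/-- RES (a): the innovations `g_i f_i g_i` have bounded sum. -/
def ResAP : Prop := ∀ (d n : ℕ) (f : ℕ → Mt d) (lam : ℝ), 1 ≤ lam → (∀ i < n, IsPr (f i)) →
  Le (∑ i ∈ Finset.range n, gg lam (Qs f i) * f i * gg lam (Qs f i))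
    (((1 + 1 / lam : ℝ) : ℂ) • (1 - gg lam (Qs f n)))

/-- RES (b): the resolvents nearly commute with a unitary `v` on the projections. -/
def ResBP : Prop := ∀ (d n : ℕ) (f : ℕ → Mt d) (lam : ℝ) (v : Mt d), 1 ≤ lam →
  (∀ i < n, IsPr (f i)) → vᴴ * v = 1 →
  ∑ i ∈ Finset.range n, hs ((v * gg lam (Qs f i) - gg lam (Qs f i) * v) * f i)
      ≤ 7 * (lam + 1) * ∑ i ∈ Finset.range n, hs (v * f i - f i * v) ∧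
    hs (v * gg lam (Qs f n) - gg lam (Qs f n) * v)
      ≤ 3 * lam * ∑ i ∈ Finset.range n, hs (v * f i - f i * v)

/-- DAR: the total mass seen in the transition region of the resolvent is small. -/
def DarP : Prop := ∀ (d n M : ℕ) (f P : ℕ → Mt d), 2 ≤ M →
  (∀ i < n, IsPr (f i)) → (∀ i < n, IsPr (P i) ∧ f i * P i = P i) →
  (∀ i < n, Le ((1 / 2 : ℂ) • P i) (P i * gg (2 ^ M) (Qs f i) * P i)) →
  ∑ i ∈ Finset.range n, tr (gg (2 ^ M) (Qs f i) * hh (2 ^ M) (Qs f i) * f i)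
      ≤ 20 / M * (∑ i ∈ Finset.range n, tr (f i))
        + 2 * ∑ i ∈ Finset.range n, (tr (f i) - tr (P i)) ∧
    tr (gg (2 ^ M) (Qs f n) * hh (2 ^ M) (Qs f n))
      ≤ 20 / (M - 1) * (∑ i ∈ Finset.range n, tr (f i))
        + 2 * ∑ i ∈ Finset.range n, (tr (f i) - tr (P i))

/-- CUT: comparison of a projection `f` with a spectral projection `e` of `g f g`. -/
def CutP : Prop := ∀ (d : ℕ) (f g e : Mt d), IsPr f → g.PosSemidef → Le g 1 → IsPr e →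
  e * (g * f * g) = g * f * g * e → Le ((1 / 2 : ℂ) • e) (g * f * g) →
  Le ((1 - e) * (g * f * g)) ((3 / 4 : ℂ) • (1 - e)) →
  tr e ≤ tr f ∧ tr ((1 - g) * e) ≤ tr ((1 - g) * f) - 1 / 8 * (tr f - tr e) ∧
    ∃ P : Mt d, IsPr P ∧ f * P = P ∧ tr P = tr e ∧ Le ((1 / 2 : ℂ) • P) (P * g * P)

/-- IMP: improvement of a projection which is not bad. -/
def ImpP : Prop := ∀ (d k : ℕ) (C η δ : ℝ) (S : Stp d k C η δ) (f : Mt d), 0 ≤ η → 0 ≤ C →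
  IsPr f → 2 * tr (S.D * f) ≤ δ * tr f →
  ∃ e : Mt d, IsPr e ∧ en S.u e ≤ 16 * √(k * η) * tr f ∧
    hs (e - f) ≤ 16 * (C * en S.u f + η * tr f) ∧ Le e ((4 : ℂ) • S.Φ f)

/-- ICL: improvement into the class `InF`. -/
def IclP : Prop := ∀ (d k : ℕ) (C η δ : ℝ) (S : Stp d k C η δ) (lam e1 a1 ρ : ℝ) (Q f : Mt d),
  0 ≤ η → 0 ≤ C → 1 ≤ lam → Q.PosSemidef → IsPr f → 0 < tr f → 0 ≤ ρ → 0 ≤ a1 → ρ ^ 2 ≤ 1 / 2 →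
  16 * (C * e1 + η) ≤ ρ ^ 2 → en S.u f ≤ e1 * tr f → tr (hh lam Q * f) ≤ a1 * tr f →
  (√a1 + ρ) ^ 2 ≤ 1 / 16 * (1 - ρ ^ 2) →
  2 * tr (S.D * f) ≤ δ * tr f → 16 * tr (S.D * S.Φ f) ≤ δ * tr f →
  ∃ f' : Mt d, InF S lam Q f' ∧ tr f' ≤ (1 + ρ ^ 2) * tr f ∧ (1 - ρ ^ 2) * tr f ≤ tr f' ∧
    tr (hh lam Q * f') ≤ (√(tr (hh lam Q * f)) + ρ * √(tr f)) ^ 2 ∧
    hs (f' - f) ≤ ρ ^ 2 * tr f ∧ Le f' ((4 : ℂ) • S.Φ f)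

/-- GRE: existence of a complete greedy sequence. -/
def GreP : Prop := ∀ (d k : ℕ) (C η δ : ℝ) (S : Stp d k C η δ) (lam e3 : ℝ),
  2 ≤ lam → 0 < e3 →
  ∃ (n : ℕ) (f : ℕ → Mt d), Greedy S lam e3 n f ∧ (∀ f' : Mt d, ¬ InF S lam (Qs f n) f') ∧
    ∑ i ∈ Finset.range n, tr (f i) ≤ 2 * d ∧
    (∀ i < n, tr (hh lam (Qs f i) * f i) ≤ 1 / 16 * tr (f i))

/-- The parameter `ρ` of `PicP`. -/
noncomputable def rho (k : ℕ) (C η e2 : ℝ) : ℝ :=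
  √(16 * (C * (32 * √(3 * k * (2 * e2 + 32 * √(k * η)))) + η))

/-- PIC (1): a good near-minimiser has few directions which are covered. -/
def Pic1P : Prop := ∀ (d k : ℕ) (C η δ : ℝ) (S : Stp d k C η δ) (lam e2 e3 δ1 : ℝ) (Q f : Mt d),
  0 < η → 1 ≤ C → 1 ≤ lam → Q.PosSemidef → 0 ≤ e2 → 0 < e3 → e3 ≤ 1 → 0 ≤ δ1 → 64 * δ1 ≤ δ →
  rho k C η e2 ≤ 1 / 16 →
  InF S lam Q f → (∀ f' : Mt d, InF S lam Q f' → JJ lam Q f ≤ (1 + e3) * JJ lam Q f') →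
  ∑ s, hs ((S.u s * gg lam Q - gg lam Q * S.u s) * f) ≤ e2 * tr f →
  ∑ s, hs (((S.u s)ᴴ * gg lam Q - gg lam Q * (S.u s)ᴴ) * f) ≤ e2 * tr f →
  tr (S.D * (gg lam Q * f * gg lam Q)) ≤ δ1 * tr f →
  tr (S.D * S.Φ (gg lam Q * f * gg lam Q)) ≤ δ1 * tr f →
  ∃ P : Mt d, IsPr P ∧ f * P = P ∧ Le ((1 / 2 : ℂ) • P) (P * gg lam Q * P) ∧
    tr f - tr P ≤ (48 * rho k C η e2 + 6 * e3) * tr f

/-- PIC (2): a good near-minimiser outside the transition region is close to a piece `q` which is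
nearly uncovered, not bad and near-minimal. -/
def Pic2P : Prop := ∀ (d k : ℕ) (C η δ : ℝ) (S : Stp d k C η δ) (lam e2 e3 δ1 θ : ℝ)
  (Q f : Mt d),
  0 < η → 1 ≤ C → 1 ≤ lam → Q.PosSemidef → 0 ≤ e2 → 0 < e3 → e3 ≤ 1 / 100 → 0 ≤ δ1 →
  64 * δ1 ≤ δ → rho k C η e2 ≤ 1 / 200 → 0 ≤ θ → θ ≤ 1 / 1000 →
  InF S lam Q f → (∀ f' : Mt d, InF S lam Q f' → JJ lam Q f ≤ (1 + e3) * JJ lam Q f') →
  ∑ s, hs ((S.u s * gg lam Q - gg lam Q * S.u s) * f) ≤ e2 * tr f →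
  ∑ s, hs (((S.u s)ᴴ * gg lam Q - gg lam Q * (S.u s)ᴴ) * f) ≤ e2 * tr f →
  tr (S.D * (gg lam Q * f * gg lam Q)) ≤ δ1 * tr f →
  tr (S.D * S.Φ (gg lam Q * f * gg lam Q)) ≤ δ1 * tr f →
  tr (S.D * S.Φ (S.Φ (gg lam Q * f * gg lam Q))) ≤ δ1 * tr f →
  tr (gg lam Q * hh lam Q * f) ≤ θ * tr f →
  ∃ q : Mt d, InF S lam Q q ∧
    tr (hh lam Q * q) ≤ (32 * θ + 8 * rho k C η e2) * tr q ∧
    tr (S.D * q) ≤ 32 * δ1 * tr q ∧ tr (S.D * S.Φ q) ≤ 32 * δ1 * tr q ∧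
    (∀ f' : Mt d, InF S lam Q f' →
      JJ lam Q q ≤ (1 + 32 * θ + 8 * rho k C η e2 + 4 * e3) * JJ lam Q f') ∧
    hs (q - f) ≤ 2000 * (θ + rho k C η e2 + e3) * tr f ∧
    tr (hh lam Q * f) ≤ 100 * (θ + rho k C η e2 + e3) * tr f

/-- IRR: near-minimal uncovered pieces have no large near-invariant subprojection. -/
def IrrP : Prop := ∀ (d k : ℕ) (C η δ : ℝ) (S : Stp d k C η δ) (lam a2 δ2 t ζ1 : ℝ)
  (Q q : Mt d), 0 < η → η ≤ 1 / 2048 → 1 ≤ C → 1 ≤ lam → Q.PosSemidef → IsPr q → 0 < tr q →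
  0 < ζ1 → a2 ≤ ζ1 / 200 → 16 * δ2 ≤ ζ1 * δ → t ≤ 1 / 10 → 0 ≤ δ →
  tr (hh lam Q * q) ≤ a2 * tr q → tr (S.D * q) ≤ δ2 * tr q → tr (S.D * S.Φ q) ≤ δ2 * tr q →
  (∀ f' : Mt d, InF S lam Q f' → tr q ≤ (1 + t) * JJ lam Q f') →
  ∀ z : Mt d, IsPr z → q * z = z → en S.u z ≤ 1 / (2048 * C) * tr z → tr z ≤ 2 / 3 * tr q →
    tr z ≤ ζ1 * tr q

/-- COR: extraction of a core with an isoperimetric gap. -/
def CorP : Prop := ∀ (d k : ℕ) (u : Fin k → Mt d) (e1 ζ1 : ℝ) (q : Mt d),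
  (∀ s, (u s)ᴴ * u s = 1) → IsPr q → 0 < tr q → 0 < e1 → 0 < ζ1 → ζ1 ≤ 1 / 8 →
  (∀ z : Mt d, IsPr z → q * z = z → en u z ≤ e1 * tr z → tr z ≤ 2 / 3 * tr q →
    tr z ≤ ζ1 * tr q) →
  ∃ q' : Mt d, IsPr q' ∧ q * q' = q' ∧ tr (q - q') ≤ ζ1 * tr q ∧
    en u q' ≤ en u q + e1 * ζ1 * tr q ∧ Iso u e1 q'

/-- GAP: an isoperimetric gap gives a spectral gap. -/
def GapP : Prop := ∀ (d k : ℕ) (u : Fin k → Mt d) (e1 ζ : ℝ) (q : Mt d),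
  (∀ s, (u s)ᴴ * u s = 1) → IsPr q → 0 < e1 → 0 ≤ ζ → en u q ≤ ζ * tr q → Iso u e1 q →
  Gap u (16 * k / e1 ^ 2) ζ q

/-- POL: a near-intertwiner is close to a multiple of an isometry. -/
def PolP : Prop := ∀ (d k : ℕ) (u : Fin k → Mt d) (C2 ζ τ : ℝ) (q q' x : Mt d),
  (∀ s, (u s)ᴴ * u s = 1) → IsPr q → IsPr q' → 0 < tr q → tr q ≤ tr q' → 1 ≤ C2 → 0 ≤ ζ →
  0 ≤ τ → Gap u C2 ζ q → Gap u C2 ζ q' → q' * x * q = x → x ≠ 0 → en u x ≤ τ * hs x →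
  C2 * (2 * τ + ζ) ≤ 1 / 4 →
  ∃ v : Mt d, vᴴ * v = q ∧ q' * v = v ∧
    tr q' ≤ (1 + 2 * (C2 * (2 * τ + ζ))) * tr q ∧
    en u v ≤ (6 * τ + 32 * k * (C2 * (2 * τ + ζ))) * tr q

/-- INT: a rough intertwiner between two pieces can be replaced by a very good one. -/
def IntP : Prop := ∀ (d k : ℕ) (C η δ : ℝ) (S : Stp d k C η δ) (C2 ζ : ℝ) (q q' x : Mt d),
  0 < η → 1 ≤ C → 1 ≤ C2 → 0 ≤ ζ → ζ + η ≤ 1 / (1000 * (k + 1) * C2 * C) →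
  IsPr q → IsPr q' → 0 < tr q → tr q ≤ tr q' → Gap S.u C2 ζ q → Gap S.u C2 ζ q' →
  en S.u q ≤ ζ * tr q → en S.u q' ≤ ζ * tr q' →
  tr (S.D * q) ≤ δ / 4 * tr q → tr (S.D * q') ≤ δ / 4 * tr q' →
  q' * x * q = x → x ≠ 0 → en S.u x ≤ 1 / (1000 * (k + 1) * C2 * C) * hs x →
  ∃ v : Mt d, vᴴ * v = q ∧ q' * v = v ∧
    tr q' ≤ (1 + 150 * C2 * (ζ + η)) * tr q ∧
    en S.u v ≤ 3000 * (k + 1) * C2 * (ζ + η) * tr q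

/-- NIS: a near-isometry of rectangular matrices is close to an isometry. -/
def NisP : Prop := ∀ (d : ℕ) (J : Type) [Fintype J] [DecidableEq J] (Y : Matrix (Fin d) J ℂ)
  (κ : ℝ), 0 ≤ κ → Le (Y * Yᴴ) (((1 + κ : ℝ) : ℂ) • 1) → Fintype.card J ≤ d →
  ∃ Θ : Matrix (Fin d) J ℂ, Θᴴ * Θ = 1 ∧ hs (Θ - Y) ≤ (1 + 2 * κ) * Fintype.card J - hs Y

/-- CMB: reduce the sizes of the pieces so that the total is at most `d`. -/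
def CmbP : Prop := ∀ (I K : Type) [Fintype I] [DecidableEq I] [DecidableEq K] (c : I → K)
  (l : K → ℕ) (d : ℕ) (ζ : ℝ), 0 < ζ → ζ ≤ 1 →
  ((∑ i, l (c i) : ℕ) : ℝ) ≤ (1 + ζ ^ 2 / 8) * d →
  ∃ (I' : Finset I) (l' : K → ℕ), (∀ j, l' j ≤ l j) ∧ ∑ i ∈ I', l' (c i) ≤ d ∧
    (1 - ζ) * ((∑ i, l (c i) : ℕ) : ℝ) ≤ ((∑ i ∈ I', l' (c i) : ℕ) : ℝ)

/-- COV: if the class is empty then almost everything is covered. -/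
def CovP : Prop := ∀ (d k : ℕ) (C η δ : ℝ) (S : Stp d k C η δ) (lam a b c c4 : ℝ) (Q : Mt d),
  0 < d → 0 < η → η ≤ 1 / 2048 → 1 ≤ C → 1 ≤ lam → Q.PosSemidef → 0 ≤ a → 0 ≤ b → 0 ≤ c →
  0 < c4 → (∀ f' : Mt d, ¬ InF S lam Q f') →
  en S.u (gg lam Q) ≤ a * d → tr (gg lam Q * hh lam Q) ≤ b * d → tr S.D ≤ c * d →
  2048 * C * (16 * √(k * a)) ≤ c4 → 200 * b ≤ c4 → 16 * c ≤ δ * c4 →
  (1 - c4 - 4 * b) * d ≤ tr (hh lam Q)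

end Pool.Agent.W661.RC
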