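import Pool.Agent.W661.RC.Stm

/-!
# Project RC: property (T) input and assembly statements
-/

set_option autoImplicit false

namespace Pool.Agent.W661.RC

open Matrix
open scoped ComplexOrder

noncomputable section

/-- Property (T): every unitary representation on a complex Hilbert space which almost has
invariant vectors has a nonzero invariant vector. -/
def HasT (G : Type) [Group G] : Prop :=
  ∀ (H : Type) [NormedAddCommGroup H] [InnerProductSpace ℂ H] [CompleteSpace H]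
    (π : G →* unitary (H →L[ℂ] H)),
    (∀ (K : Finset G) (ε : ℝ), 0 < ε →
      ∃ v : H, ‖v‖ = 1 ∧ ∀ g ∈ K, ‖(π g : H →L[ℂ] H) v - v‖ < ε) →
    ∃ v : H, v ≠ 0 ∧ ∀ g : G, (π g : H →L[ℂ] H) v = v

/-- The lazy Markov operator of a unitary representation of a free group. -/
def Mk {k : ℕ} {H : Type} [NormedAddCommGroup H] [InnerProductSpace ℂ H] [CompleteSpace H]
    (ρ : FreeGroup (Fin k) →* unitary (H →L[ℂ] H)) : H →L[ℂ] H :=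
  (1 / 2 : ℂ) • 1 + (1 / (2 * (2 * k + 1)) : ℂ) •
    (1 + ∑ s, ((ρ (FreeGroup.of s) : H →L[ℂ] H) + (ρ (FreeGroup.of s)⁻¹ : H →L[ℂ] H)))

/-- The smoothing estimate for the vector `ξ`. -/
def Smo {k : ℕ} {H : Type} [NormedAddCommGroup H] [InnerProductSpace ℂ H] [CompleteSpace H]
    (ρ : FreeGroup (Fin k) →* unitary (H →L[ℂ] H)) (K : ℕ) (C η : ℝ) (ξ : H) : Prop :=
  ∑ s, ‖(ρ (FreeGroup.of s) : H →L[ℂ] H) ((Mk ρ ^ K) ξ) - (Mk ρ ^ K) ξ‖ ^ 2 ≤ η * ‖ξ‖ ^ 2 ∧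
    ‖(Mk ρ ^ K) ξ - ξ‖ ^ 2 ≤
      C * ∑ s, ‖(ρ (FreeGroup.of s) : H →L[ℂ] H) ξ - ξ‖ ^ 2 + η * ‖ξ‖ ^ 2

/-- PTA: a uniform Kazhdan constant. -/
def PtaP : Prop := ∀ (G : Type) [Group G] (k : ℕ) (γ : FreeGroup (Fin k) →* G),
  HasT G → Function.Surjective γ →
  ∃ c : ℝ, 0 < c ∧ ∀ (H : Type) [NormedAddCommGroup H] [InnerProductSpace ℂ H] [CompleteSpace H]
    (π : G →* unitary (H →L[ℂ] H)),
    (∀ v : H, (∀ g : G, (π g : H →L[ℂ] H) v = v) → v = 0) →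
    ∀ ξ : H, c * ‖ξ‖ ^ 2 ≤ ∑ s, ‖(π (γ (FreeGroup.of s)) : H →L[ℂ] H) ξ - ξ‖ ^ 2

/-- PTB: smoothing for representations which factor through `G`. -/
def PtbP : Prop := ∀ (G : Type) [Group G] (k : ℕ) (γ : FreeGroup (Fin k) →* G),
  HasT G → Function.Surjective γ →
  ∃ C : ℝ, 1 ≤ C ∧ ∀ η : ℝ, 0 < η → ∃ K : ℕ,
    ∀ (H : Type) [NormedAddCommGroup H] [InnerProductSpace ℂ H] [CompleteSpace H]
      (ρ : FreeGroup (Fin k) →* unitary (H →L[ℂ] H)), (∀ w, γ w = 1 → ρ w = 1) →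
      ∀ ξ : H, Smo ρ K C η ξ

/-- PTC: compactness, passing from representations to approximate ones. -/
def PtcP : Prop := ∀ (k : ℕ) (N : Subgroup (FreeGroup (Fin k))) [N.Normal] (K : ℕ) (C η : ℝ),
  0 < η →
  (∀ (H : Type) [NormedAddCommGroup H] [InnerProductSpace ℂ H] [CompleteSpace H]
    (ρ : FreeGroup (Fin k) →* unitary (H →L[ℂ] H)), (∀ w ∈ N, ρ w = 1) → ∀ ξ : H,
      Smo ρ K C η ξ) →
  ∃ δ : ℝ, 0 < δ ∧ ∃ R : Finset (FreeGroup (Fin k)), (∀ w ∈ R, w ∈ N) ∧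
    ∀ (H : Type) [NormedAddCommGroup H] [InnerProductSpace ℂ H] [CompleteSpace H]
      (ρ : FreeGroup (Fin k) →* unitary (H →L[ℂ] H)) (ξ : H),
      (∀ w ∈ R, ‖(ρ w : H →L[ℂ] H) ξ - ξ‖ ≤ δ * ‖ξ‖) → Smo ρ K C (2 * η) ξ

/-- The defect matrix of a homomorphism of the free group for the finite set `R` of relations. -/
def Dfc {k d : ℕ} (U : Fin k → Matrix.unitaryGroup (Fin d) ℂ)
    (R : Finset (FreeGroup (Fin k))) : Mt d :=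
  ∑ w ∈ R, ((FreeGroup.lift U w : Mt d) - 1)ᴴ * ((FreeGroup.lift U w : Mt d) - 1)

/-- PTD: existence of the smoothing systems `Stp`. -/
def PtdP : Prop := ∀ (G : Type) [Group G] (k : ℕ) (γ : FreeGroup (Fin k) →* G),
  HasT G → Function.Surjective γ →
  ∃ C : ℝ, 1 ≤ C ∧ ∀ η : ℝ, 0 < η → ∃ δ : ℝ, 0 < δ ∧
    ∃ R : Finset (FreeGroup (Fin k)), (∀ w ∈ R, γ w = 1) ∧
      ∀ (d : ℕ) (U : Fin k → Matrix.unitaryGroup (Fin d) ℂ),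
        ∃ S : Stp d k C η δ, (∀ s, S.u s = (U s : Mt d)) ∧ S.D = Dfc U R

/-- Very good choices. -/
def VG {d k : ℕ} {C η δ : ℝ} (S : Stp d k C η δ) (lam e2 δ1 θ : ℝ) (Q f : Mt d) : Prop :=
  ∑ s, hs ((S.u s * gg lam Q - gg lam Q * S.u s) * f) ≤ e2 * tr f ∧
  ∑ s, hs (((S.u s)ᴴ * gg lam Q - gg lam Q * (S.u s)ᴴ) * f) ≤ e2 * tr f ∧
  tr (S.D * (gg lam Q * f * gg lam Q)) ≤ δ1 * tr f ∧
  tr (S.D * S.Φ (gg lam Q * f * gg lam Q)) ≤ δ1 * tr f ∧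
  tr (S.D * S.Φ (S.Φ (gg lam Q * f * gg lam Q))) ≤ δ1 * tr f ∧
  tr (gg lam Q * hh lam Q * f) ≤ θ * tr f

open Classical in
/-- MAS: the choices which are not very good have small total mass. -/
def MasP : Prop := ∀ (d k : ℕ) (C η δ : ℝ) (S : Stp d k C η δ) (M n : ℕ) (e2 e3 δ1 δt θ B3 : ℝ)
  (f : ℕ → Mt d), 2 ≤ M → 0 < η → 1 ≤ C → 0 < e2 → 0 < e3 → e3 ≤ 1 → 0 < δ1 → 64 * δ1 ≤ δ →
  rho k C η e2 ≤ 1 / 16 → 0 < θ → Greedy S (2 ^ M) e3 n f →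
  ∑ i ∈ Finset.range n, tr (f i) ≤ 2 * d → tr S.D ≤ δt * d →
  B3 = (1000 * (2 ^ M + 1) / e2 * √(k * η) + 6 * δt / δ1) * d →
  ∑ i ∈ (Finset.range n).filter (fun i => ¬ VG S (2 ^ M) e2 δ1 θ (Qs f i) (f i)), tr (f i)
      ≤ (1 + 2 / θ) * B3 + 1 / θ * (40 / M + 4 * (48 * rho k C η e2 + 6 * e3)) * d ∧
    tr (gg (2 ^ M) (Qs f n) * hh (2 ^ M) (Qs f n))
      ≤ (40 / (M - 1) + 4 * (48 * rho k C η e2 + 6 * e3)) * d + 2 * B3 ∧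
    en S.u (gg (2 ^ M) (Qs f n)) ≤ 192 * 2 ^ M * √(k * η) * d

/-- Decomposition of `C^d` into pieces. -/
structure Dec {d k : ℕ} {C η δ : ℝ} (S : Stp d k C η δ) (ζ : ℝ) (n : ℕ) (a q : Fin n → Mt d) :
    Prop where
  pr : ∀ i, IsPr (q i)
  nz : ∀ i, 0 < tr (q i)
  inv : ∀ i, en S.u (q i) ≤ ζ * tr (q i)
  bad : ∀ i, tr (S.D * q i) ≤ δ / 4 * tr (q i)
  iso : ∀ i, Iso S.u (1 / (2048 * C)) (q i)
  sum : Le (∑ i, a i * (a i)ᴴ) (((1 + ζ : ℝ) : ℂ) • 1)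
  near : ∑ i, hs (a i - q i) ≤ ζ * d
  tot : (1 - ζ) * d ≤ ∑ i, tr (q i)

/-- DEC: existence of the decomposition. -/
def DecP : Prop := ∀ (k : ℕ) (C ζ : ℝ), 1 ≤ C → 0 < ζ → ∃ η0 : ℝ, 0 < η0 ∧
  ∀ η : ℝ, 0 < η → η ≤ η0 → ∀ δ : ℝ, 0 < δ → ∃ δ1 : ℝ, 0 < δ1 ∧
    ∀ (d : ℕ) (S : Stp d k C η δ), 0 < d → tr S.D ≤ δ1 * d →
      ∃ (n : ℕ) (a q : Fin n → Mt d), Dec S ζ n a q

/-- CLS: representatives of the classes of pieces. -/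
def ClsP : Prop := ∀ (d k : ℕ) (C η δ : ℝ) (S : Stp d k C η δ) (C2 ζ : ℝ) (n : ℕ)
  (q : Fin n → Mt d), 0 < η → 1 ≤ C → 1 ≤ C2 → 0 ≤ ζ →
  ζ + η ≤ 1 / (1000 * (k + 1) * C2 * C) → (∀ i, IsPr (q i)) → (∀ i, 0 < tr (q i)) →
  (∀ i, Gap S.u C2 ζ (q i)) → (∀ i, en S.u (q i) ≤ ζ * tr (q i)) →
  (∀ i, tr (S.D * q i) ≤ δ / 4 * tr (q i)) →
  ∃ (c : Fin n → Fin n) (v : Fin n → Mt d), (∀ i, (v i)ᴴ * v i = q (c i)) ∧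
    (∀ i, q i * v i = v i) ∧ (∀ i, tr (q (c i)) ≤ tr (q i)) ∧
    (∀ i, tr (q i) ≤ (1 + 150 * C2 * (ζ + η)) * tr (q (c i))) ∧
    (∀ i, en S.u (v i) ≤ 3000 * (k + 1) * C2 * (ζ + η) * tr (q (c i))) ∧
    ∀ i j, c i ≠ c j → ∀ x : Mt d, q (c i) * x * q (c j) = x →
      1 / (1000 * (k + 1) * C2 * C) * hs x ≤ en S.u x

/-- The index type of a sum of pieces. -/
abbrev Jx {I K : Type} (c : I → K) (l : K → ℕ) : Type := Σ i : I, Fin (l (c i))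

/-- Block matrices `⊕_κ M_{I_κ} ⊗ 1_{l κ}`. -/
def Blk {I K : Type} (c : I → K) (l : K → ℕ) (X : Matrix (Jx c l) (Jx c l) ℂ) : Prop :=
  ∃ α : Matrix I I ℂ, (∀ i j, c i ≠ c j → α i j = 0) ∧
    ∀ x y : Jx c l, X x y = if (x.2 : ℕ) = (y.2 : ℕ) then α x.1 y.1 else 0

/-- The block diagonal matrix with blocks `b* u b`. -/
def Ut {I K : Type} [DecidableEq I] {d : ℕ} (c : I → K) (l : K → ℕ)
    (b : (κ : K) → Matrix (Fin d) (Fin (l κ)) ℂ) (u : Mt d) : Matrix (Jx c l) (Jx c l) ℂ :=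
  fun x y => if x.1 = y.1 then ((b (c x.1))ᴴ * u * b (c y.1)) x.2 y.2 else 0

/-- AS1: the blocks nearly commute with `u`. -/
def As1P : Prop := ∀ (d k : ℕ) (u : Fin k → Mt d) (I K : Type) [Fintype I] [DecidableEq I]
  [DecidableEq K] (c : I → K) (l : K → ℕ) (b : (κ : K) → Matrix (Fin d) (Fin (l κ)) ℂ)
  (Θ : Matrix (Fin d) (Jx c l) ℂ) (ω : ℝ), (∀ s, (u s)ᴴ * u s = 1) →
  Θᴴ * Θ = 1 →
  ∑ s, hs (u s * Θ - Θ * Ut c l b (u s)) ≤ ω →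
  ∑ s, hs ((u s)ᴴ * Θ - Θ * (Ut c l b (u s))ᴴ) ≤ ω →
  ∀ X : Matrix (Jx c l) (Jx c l) ℂ, Blk c l X → Le (Xᴴ * X) 1 → en u (Θ * X * Θᴴ) ≤ 4 * ω

/-- AS2: matrices which nearly commute with `u` are close to the blocks. -/
def As2P : Prop := ∀ (d k : ℕ) (u : Fin k → Mt d) (I K : Type) [Fintype I] [DecidableEq I]
  [DecidableEq K] (c : I → K) (l : K → ℕ) (b : (κ : K) → Matrix (Fin d) (Fin (l κ)) ℂ)
  (q : K → Mt d) (Θ : Matrix (Fin d) (Jx c l) ℂ) (ω ω' C2 ζ γ : ℝ),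
  (∀ s, (u s)ᴴ * u s = 1) → 0 < γ → 0 ≤ C2 → 0 ≤ ζ → Θᴴ * Θ = 1 →
  (∀ κ, (b κ)ᴴ * b κ = 1) → (∀ κ, IsPr (q κ)) → (∀ κ, q κ * b κ = b κ) →
  (∀ i, Gap u C2 ζ (q (c i))) →
  (∀ i j, c i ≠ c j → ∀ x : Mt d, q (c i) * x * q (c j) = x → γ * hs x ≤ en u x) →
  ∑ s, hs (u s * Θ - Θ * Ut c l b (u s)) ≤ ω →
  ∑ s, hs ((u s)ᴴ * Θ - Θ * (Ut c l b (u s))ᴴ) ≤ ω →
  ∑ s, ∑ i, hs (u s * b (c i) - b (c i) * ((b (c i))ᴴ * u s * b (c i))) ≤ ω' →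
  ∑ s, ∑ i, hs ((u s)ᴴ * b (c i) - b (c i) * ((b (c i))ᴴ * (u s)ᴴ * b (c i))) ≤ ω' →
  ∀ x : Mt d, Le (xᴴ * x) 1 →
    ∃ X : Matrix (Jx c l) (Jx c l) ℂ, Blk c l X ∧ Le (Xᴴ * X) 1 ∧
      hs (x - Θ * X * Θᴴ) ≤ 8 * (d - Fintype.card (Jx c l))
        + 2 * ((C2 + 1 / γ) * (9 * (2 * ω + en u x) + 6 * ω') + C2 * ζ * d)

/-- AS0: construction of the isometry `Θ` from the pieces. -/
def As0P : Prop := ∀ (d k : ℕ) (C η δ : ℝ) (S : Stp d k C η δ) (ζ κ0 : ℝ) (n : ℕ)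
  (a q v : Fin n → Mt d) (c : Fin n → Fin n), 0 < d → 0 < ζ → ζ ≤ 1 / 10000 → 0 ≤ κ0 →
  κ0 ≤ 1 / 10000 → Dec S ζ n a q → (∀ i, (v i)ᴴ * v i = q (c i)) → (∀ i, q i * v i = v i) →
  (∀ i, tr (q (c i)) ≤ tr (q i)) → (∀ i, tr (q i) ≤ (1 + κ0) * tr (q (c i))) →
  (∀ i, en S.u (v i) ≤ κ0 * tr (q (c i))) →
  ∃ (I : Finset (Fin n)) (l : Fin n → ℕ) (b : (κ : Fin n) → Matrix (Fin d) (Fin (l κ)) ℂ)
    (Θ : Matrix (Fin d) (Jx (fun i : I => c i) l) ℂ),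
    Θᴴ * Θ = 1 ∧ (∀ κ, (b κ)ᴴ * b κ = 1) ∧ (∀ κ, q κ * b κ = b κ) ∧
    (d : ℝ) - Fintype.card (Jx (fun i : I => c i) l) ≤ 100 * √(√(ζ + κ0)) * d ∧
    ∑ s, hs (S.u s * Θ - Θ * Ut (fun i : I => c i) l b (S.u s))
      ≤ 1000 * (k + 1) * √(√(ζ + κ0)) * d ∧
    ∑ s, hs ((S.u s)ᴴ * Θ - Θ * (Ut (fun i : I => c i) l b (S.u s))ᴴ)
      ≤ 1000 * (k + 1) * √(√(ζ + κ0)) * d ∧
    ∑ s, ∑ i : I, hs (S.u s * b (c i) - b (c i) * ((b (c i))ᴴ * S.u s * b (c i)))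
      ≤ 1000 * (k + 1) * √(√(ζ + κ0)) * d ∧
    ∑ s, ∑ i : I, hs ((S.u s)ᴴ * b (c i) - b (c i) * ((b (c i))ᴴ * (S.u s)ᴴ * b (c i)))
      ≤ 1000 * (k + 1) * √(√(ζ + κ0)) * d

/-- The output of the finite-dimensional theorem: an isometry `Θ` with a block structure. -/
structure Out (d : ℕ) where
  I : Type
  K : Type
  fI : Fintype I
  dI : DecidableEq I
  dK : DecidableEq K
  c : I → K
  l : K → ℕ
  Θ : Matrix (Fin d) (Jx c l) ℂ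
  iso : Θᴴ * Θ = 1

attribute [instance] Out.fI Out.dI Out.dK

/-- The finite-dimensional *-algebra of `O`. -/
def Out.alg {d : ℕ} (O : Out d) : Set (Mt d) :=
  {a | ∃ X : Matrix (Jx O.c O.l) (Jx O.c O.l) ℂ, Blk O.c O.l X ∧ a = O.Θ * X * O.Θᴴ}

/-- FIN: the finite-dimensional theorem. -/
def FinP : Prop := ∀ (k : ℕ) (C : ℝ), 1 ≤ C → ∃ K0 : ℝ, 0 < K0 ∧ ∀ ε : ℝ, 0 < ε →
  ∃ η : ℝ, 0 < η ∧ ∀ δ : ℝ, 0 < δ → ∃ δ1 : ℝ, 0 < δ1 ∧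
    ∀ (d : ℕ) (S : Stp d k C η δ), 0 < d → tr S.D ≤ δ1 * d →
      ∃ O : Out d, (∀ a ∈ O.alg, Le (aᴴ * a) 1 → en S.u a ≤ ε * d) ∧
        (∀ x : Mt d, Le (xᴴ * x) 1 → ∃ a ∈ O.alg, Le (aᴴ * a) 1 ∧
          hs (x - a) ≤ K0 * en S.u x + ε * d) ∧
        (d : ℝ) - Fintype.card (Jx O.c O.l) ≤ ε * d

/-- ALG: the blocks form a *-subalgebra. -/
def AlgP : Prop := ∀ (d : ℕ) (O : Out d), ∃ A : NonUnitalStarSubalgebra ℂ (Mt d),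
  (A : Set (Mt d)) = O.alg

end

end Pool.Agent.W661.RC
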