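import Pool.Agent.W661.RC.Stm2

/-!
# Project RC: ultraproducts and the final theorems
-/

set_option autoImplicit false

namespace Pool.Agent.W661.RC

open Matrix Filter Topology
open scoped ComplexOrder
open scoped Matrix.Norms.L2Operator

noncomputable section

/-- FIN2: the finite-dimensional theorem with the near-intertwining isometry. -/
def Fin2P : Prop := ∀ (k : ℕ) (C : ℝ), 1 ≤ C → ∃ K0 : ℝ, 0 < K0 ∧ ∀ ε : ℝ, 0 < ε →
  ∃ η : ℝ, 0 < η ∧ ∀ δ : ℝ, 0 < δ → ∃ δ1 : ℝ, 0 < δ1 ∧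
    ∀ (d : ℕ) (S : Stp d k C η δ), 0 < d → tr S.D ≤ δ1 * d →
      ∃ (O : Out d) (b : (κ : O.K) → Matrix (Fin d) (Fin (O.l κ)) ℂ),
        (∀ κ, (b κ)ᴴ * b κ = 1) ∧
        ∑ s, hs (S.u s * O.Θ - O.Θ * Ut O.c O.l b (S.u s)) ≤ ε * d ∧
        (∀ a ∈ O.alg, Le (aᴴ * a) 1 → en S.u a ≤ ε * d) ∧
        (∀ x : Mt d, Le (xᴴ * x) 1 → ∃ a ∈ O.alg, Le (aᴴ * a) 1 ∧
          hs (x - a) ≤ K0 * en S.u x + ε * d) ∧
        (d : ℝ) - Fintype.card (Jx O.c O.l) ≤ ε * d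

/-- UNI: a square matrix is close to a unitary matrix. -/
def UniP : Prop := ∀ (d : ℕ) (x : Mt d), ∃ u : Matrix.unitaryGroup (Fin d) ℂ,
  hs (x - (u : Mt d)) ≤ hs (xᴴ * x - 1)

/-- GE1: generic perturbation of two families of unitary matrices. -/
def Ge1P : Prop := ∀ (K : Type) [Fintype K] [DecidableEq K] (l : K → ℕ)
  (W : Fin 2 → (κ : K) → Matrix.unitaryGroup (Fin (l κ)) ℂ) (ε : ℝ), 0 < ε →
  ∃ V : Fin 2 → (κ : K) → Matrix.unitaryGroup (Fin (l κ)) ℂ,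
    (∀ s κ, hs ((V s κ : Mt (l κ)) - (W s κ : Mt (l κ))) ≤ ε) ∧
    (∀ (κ κ' : K) (y : Matrix (Fin (l κ)) (Fin (l κ')) ℂ), κ ≠ κ' →
      (∀ s, (V s κ : Mt (l κ)) * y = y * (V s κ' : Mt (l κ'))) → y = 0) ∧
    (∀ (κ : K) (y : Mt (l κ)),
      (∀ s, (V s κ : Mt (l κ)) * y = y * (V s κ : Mt (l κ))) → ∃ z : ℂ, y = z • 1)

/-- GE2: unitaries close to the given ones whose centralizer is the block algebra (made unital). -/
def Ge2P : Prop := ∀ (k : ℕ) (ε : ℝ), 2 ≤ k → 0 < ε → ∃ ε' : ℝ, 0 < ε' ∧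
  ∀ (d : ℕ) (U : Fin k → Matrix.unitaryGroup (Fin d) ℂ) (O : Out d)
    (b : (κ : O.K) → Matrix (Fin d) (Fin (O.l κ)) ℂ), 0 < d →
    (∀ κ, (b κ)ᴴ * b κ = 1) →
    ∑ s, hs ((U s : Mt d) * O.Θ - O.Θ * Ut O.c O.l b (U s : Mt d)) ≤ ε' * d →
    (d : ℝ) - Fintype.card (Jx O.c O.l) ≤ ε' * d →
    ∃ V : Fin k → Matrix.unitaryGroup (Fin d) ℂ,
      (∀ s, hs ((V s : Mt d) - (U s : Mt d)) ≤ ε * d) ∧
      ∀ x : Mt d, (∀ s, x * (V s : Mt d) = (V s : Mt d) * x) ↔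
        ∃ a ∈ O.alg, ∃ z : ℂ, x = a + z • (1 - O.Θ * O.Θᴴ)

lemma hs_eq_col {m n : Type} [Fintype m] [Fintype n] (x : Matrix m n ℂ) :
    hs x = ∑ j, ‖(WithLp.toLp 2 (fun i => x i j) : EuclideanSpace ℂ m)‖ ^ 2 := by
  unfold hs
  rw [Finset.sum_comm]
  refine Finset.sum_congr rfl fun j _ => ?_
  rw [EuclideanSpace.norm_sq_eq]

lemma hs_nonneg' {m n : Type} [Fintype m] [Fintype n] (x : Matrix m n ℂ) : 0 ≤ hs x :=
  Finset.sum_nonneg fun _ _ => Finset.sum_nonneg fun _ _ => by positivity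

lemma hs_conj {m n : Type} [Fintype m] [Fintype n] (x : Matrix m n ℂ) : hs xᴴ = hs x := by
  unfold hs
  rw [Finset.sum_comm]
  simp [Matrix.conjTranspose_apply]

lemma hs_mul_le_op {d : ℕ} (a x : Mt d) : hs (a * x) ≤ ‖a‖ ^ 2 * hs x := by
  rw [hs_eq_col, hs_eq_col, Finset.mul_sum]
  refine Finset.sum_le_sum fun j _ => ?_
  rw [← mul_pow]
  refine pow_le_pow_left₀ (norm_nonneg _) ?_ 2
  have := Matrix.l2_opNorm_mulVec a (WithLp.toLp 2 (fun i => x i j) : EuclideanSpace ℂ (Fin d))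
  refine le_trans (le_of_eq ?_) this
  congr 1

lemma hs_mul_le_op' {d : ℕ} (a x : Mt d) : hs (x * a) ≤ ‖a‖ ^ 2 * hs x := by
  rw [← hs_conj (x * a), ← hs_conj x, Matrix.conjTranspose_mul, ← Matrix.l2_opNorm_conjTranspose a]
  exact hs_mul_le_op _ _

lemma hs_add_le_two {m n : Type} [Fintype m] [Fintype n] (x y : Matrix m n ℂ) :
    hs (x + y) ≤ 2 * hs x + 2 * hs y := by
  unfold hs
  rw [Finset.mul_sum, Finset.mul_sum, ← Finset.sum_add_distrib]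
  refine Finset.sum_le_sum fun i _ => ?_
  rw [Finset.mul_sum, Finset.mul_sum, ← Finset.sum_add_distrib]
  refine Finset.sum_le_sum fun j _ => ?_
  have h : ‖(x + y) i j‖ ≤ ‖x i j‖ + ‖y i j‖ := norm_add_le _ _
  nlinarith [sq_nonneg (‖x i j‖ - ‖y i j‖), norm_nonneg ((x + y) i j)]

lemma hs_neg' {m n : Type} [Fintype m] [Fintype n] (x : Matrix m n ℂ) : hs (-x) = hs x := by
  simp [hs]

lemma norm_one_le' (d : ℕ) : ‖(1 : Mt d)‖ ≤ 1 := by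
  have h := CStarRing.norm_star_mul_self (x := (1 : Mt d))
  rw [star_one, one_mul] at h
  nlinarith [norm_nonneg (1 : Mt d)]

/-- The ring of operator norm bounded sequences of matrices of sizes `d n`. -/
def BSeq (d : ℕ → ℕ) : Subring (∀ n, Mt (d n)) where
  carrier := {x | ∃ B : ℝ, ∀ n, ‖x n‖ ≤ B}
  mul_mem' := by
    rintro x y ⟨A, hA⟩ ⟨B, hB⟩
    refine ⟨A * B, fun n => ?_⟩
    exact (norm_mul_le _ _).trans (mul_le_mul (hA n) (hB n) (norm_nonneg _)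
      ((norm_nonneg _).trans (hA n)))
  one_mem' := ⟨1, fun n => norm_one_le' _⟩
  add_mem' := by
    rintro x y ⟨A, hA⟩ ⟨B, hB⟩
    exact ⟨A + B, fun n => (norm_add_le _ _).trans (add_le_add (hA n) (hB n))⟩
  zero_mem' := ⟨0, fun n => by simp⟩
  neg_mem' := by
    rintro x ⟨A, hA⟩
    exact ⟨A, fun n => by simpa using hA n⟩

/-- The ideal of the bounded sequences with `‖x n‖₂ → 0` along the ultrafilter (normalised
2-norm, `‖x‖₂² = hs x / d`). -/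
def NullI (𝒰 : Ultrafilter ℕ) (d : ℕ → ℕ) : TwoSidedIdeal (BSeq d) :=
  TwoSidedIdeal.mk' {x | Tendsto (fun n => hs ((x : ∀ n, Mt (d n)) n) / d n) 𝒰 (𝓝 0)}
    (by simp [hs])
    (by
      intro x y hx hy
      have h : Tendsto (fun n => 2 * (hs ((x : ∀ n, Mt (d n)) n) / d n) +
          2 * (hs ((y : ∀ n, Mt (d n)) n) / d n)) 𝒰 (𝓝 0) := by
        simpa using (hx.const_mul 2).add (hy.const_mul 2)
      refine squeeze_zero (fun n => ?_) (fun n => ?_) h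
      · exact div_nonneg (hs_nonneg' _) (Nat.cast_nonneg _)
      · rw [← mul_div_assoc, ← mul_div_assoc, ← add_div]
        exact div_le_div_of_nonneg_right (hs_add_le_two _ _) (Nat.cast_nonneg _))
    (by
      intro x hx
      simpa [hs_neg'] using hx)
    (by
      intro x y hy
      obtain ⟨B, hB⟩ := x.2
      have h : Tendsto (fun n => B ^ 2 * (hs ((y : ∀ n, Mt (d n)) n) / d n)) 𝒰 (𝓝 0) := by
        simpa using hy.const_mul (B ^ 2)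
      refine squeeze_zero (fun n => ?_) (fun n => ?_) h
      · exact div_nonneg (hs_nonneg' _) (Nat.cast_nonneg _)
      · rw [← mul_div_assoc]
        refine div_le_div_of_nonneg_right ((hs_mul_le_op _ _).trans ?_) (Nat.cast_nonneg _)
        exact mul_le_mul_of_nonneg_right (pow_le_pow_left₀ (norm_nonneg _) (hB n) 2)
          (hs_nonneg' _))
    (by
      intro x y hx
      obtain ⟨B, hB⟩ := y.2
      have h : Tendsto (fun n => B ^ 2 * (hs ((x : ∀ n, Mt (d n)) n) / d n)) 𝒰 (𝓝 0) := by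
        simpa using hx.const_mul (B ^ 2)
      refine squeeze_zero (fun n => ?_) (fun n => ?_) h
      · exact div_nonneg (hs_nonneg' _) (Nat.cast_nonneg _)
      · rw [← mul_div_assoc]
        refine div_le_div_of_nonneg_right ((hs_mul_le_op' _ _).trans ?_) (Nat.cast_nonneg _)
        exact mul_le_mul_of_nonneg_right (pow_le_pow_left₀ (norm_nonneg _) (hB n) 2)
          (hs_nonneg' _))

/-- The tracial ultraproduct of the matrix algebras `M_{d n}`. -/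
abbrev MU (𝒰 : Ultrafilter ℕ) (d : ℕ → ℕ) : Type := (NullI 𝒰 d).ringCon.Quotient

/-- The class of a bounded sequence in the ultraproduct. -/
def mkU (𝒰 : Ultrafilter ℕ) (d : ℕ → ℕ) : BSeq d →+* MU 𝒰 d := (NullI 𝒰 d).ringCon.mk'

/-- The adjoint of a bounded sequence. -/
def starB {d : ℕ → ℕ} (x : BSeq d) : BSeq d :=
  ⟨fun n => ((x : ∀ n, Mt (d n)) n)ᴴ, by
    obtain ⟨B, hB⟩ := x.2
    exact ⟨B, fun n => by rw [Matrix.l2_opNorm_conjTranspose]; exact hB n⟩⟩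

/-- Unitary elements of the ultraproduct. -/
def IsUn {𝒰 : Ultrafilter ℕ} {d : ℕ → ℕ} (y : MU 𝒰 d) : Prop :=
  ∃ x : BSeq d, mkU 𝒰 d x = y ∧ mkU 𝒰 d (starB x) * mkU 𝒰 d x = 1 ∧
    mkU 𝒰 d x * mkU 𝒰 d (starB x) = 1

/-- A sequence of unitary matrices as a bounded sequence. -/
def unB {d : ℕ → ℕ} (U : ∀ n, Matrix.unitaryGroup (Fin (d n)) ℂ) : BSeq d :=
  ⟨fun n => (U n : Mt (d n)), 1, fun n => by
    have h := CStarRing.norm_star_mul_self (x := (U n : Mt (d n)))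
    rw [Matrix.mem_unitaryGroup_iff'.1 (U n).2] at h
    nlinarith [norm_nonneg (U n : Mt (d n)), norm_one_le' (d n)]⟩

/-- LFT: unitary elements have unitary lifts. -/
def LftP : Prop := ∀ (𝒰 : Ultrafilter ℕ) (d : ℕ → ℕ) (y : MU 𝒰 d), (∀ n, 0 < d n) → IsUn y →
  ∃ U : ∀ n, Matrix.unitaryGroup (Fin (d n)) ℂ, mkU 𝒰 d (unB U) = y

/-- MID: the sequence of block structures for a homomorphism to the ultraproduct. -/
def MidP : Prop := ∀ (G : Type) [Group G] (k : ℕ) (γ : FreeGroup (Fin k) →* G)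
  (𝒰 : Ultrafilter ℕ) (d : ℕ → ℕ) (π : G →* MU 𝒰 d)
  (U : Fin k → ∀ n, Matrix.unitaryGroup (Fin (d n)) ℂ),
  HasT G → Function.Surjective γ → (𝒰 : Filter ℕ) ≤ cofinite → (∀ n, 0 < d n) →
  (∀ s, mkU 𝒰 d (unB (U s)) = π (γ (FreeGroup.of s))) →
  ∃ (K0 : ℝ) (ε : ℕ → ℝ) (O : ∀ n, Out (d n))
    (b : ∀ n, (κ : (O n).K) → Matrix (Fin (d n)) (Fin ((O n).l κ)) ℂ),
    0 < K0 ∧ Tendsto ε 𝒰 (𝓝 0) ∧ ∀ᶠ n in (𝒰 : Filter ℕ),
      (∀ κ, (b n κ)ᴴ * b n κ = 1) ∧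
      ∑ s, hs ((U s n : Mt (d n)) * (O n).Θ - (O n).Θ * Ut (O n).c (O n).l (b n) (U s n : Mt (d n)))
        ≤ ε n * d n ∧
      (∀ a ∈ (O n).alg, Le (aᴴ * a) 1 → en (fun s => (U s n : Mt (d n))) a ≤ ε n * d n) ∧
      (∀ x : Mt (d n), Le (xᴴ * x) 1 → ∃ a ∈ (O n).alg, Le (aᴴ * a) 1 ∧
        hs (x - a) ≤ K0 * en (fun s => (U s n : Mt (d n))) x + ε n * d n) ∧
      ((d n : ℝ) - Fintype.card (Jx (O n).c (O n).l) ≤ ε n * d n)

/-- RE1: the relative commutant is an ultraproduct of finite-dimensional *-algebras. -/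
def Re1P : Prop := ∀ (G : Type) [Group G] [Countable G] (S : Finset G) (𝒰 : Ultrafilter ℕ)
  (d : ℕ → ℕ) (π : G →* MU 𝒰 d),
  HasT G → Subgroup.closure (S : Set G) = ⊤ → (𝒰 : Filter ℕ) ≤ cofinite → (∀ n, 0 < d n) →
  (∀ g, IsUn (π g)) →
  ∃ A : ∀ n, NonUnitalStarSubalgebra ℂ (Mt (d n)),
    {y : MU 𝒰 d | ∀ g, y * π g = π g * y} =
      {y : MU 𝒰 d | ∃ a : BSeq d, (∀ n, (a : ∀ n, Mt (d n)) n ∈ A n) ∧ mkU 𝒰 d a = y}

/-- RE2: the relative commutant is the ultraproduct of the centralizers of suitable unitary lifts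
of the generators. -/
def Re2P : Prop := ∀ (G : Type) [Group G] [Countable G] (S : Finset G) (𝒰 : Ultrafilter ℕ)
  (d : ℕ → ℕ) (π : G →* MU 𝒰 d),
  HasT G → (∀ s ∈ S, s⁻¹ ∈ S) → Subgroup.closure (S : Set G) = ⊤ → (𝒰 : Filter ℕ) ≤ cofinite →
  (∀ n, 0 < d n) → (∀ g, IsUn (π g)) →
  ∃ g : G → ∀ n, Matrix.unitaryGroup (Fin (d n)) ℂ,
    (∀ s ∈ S, mkU 𝒰 d (unB (g s)) = π s) ∧
    {y : MU 𝒰 d | ∀ h, y * π h = π h * y} =
      {y : MU 𝒰 d | ∃ a : BSeq d,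
        (∀ n, ∀ s ∈ S, (a : ∀ n, Mt (d n)) n * (g s n : Mt (d n)) =
          (g s n : Mt (d n)) * (a : ∀ n, Mt (d n)) n) ∧ mkU 𝒰 d a = y}

end

end Pool.Agent.W661.RC
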