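import Mathlib

/-!
# Property (T) and tracial ultraproducts of matrix algebras: definitions for the final statements
-/

set_option autoImplicit false

namespace Pool.Agent.W661.RCU

open Matrix Filter Topology
open scoped Matrix.Norms.L2Operator

noncomputable section

/-- A unitary representation of the group `G` on `H`: an action by linear isometries. -/
structure URep (G : Type) [Group G] (H : Type) [NormedAddCommGroup H] [InnerProductSpace ℂ H] where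
  act : G → H → H
  add : ∀ (g : G) (v w : H), act g (v + w) = act g v + act g w
  smul : ∀ (g : G) (c : ℂ) (v : H), act g (c • v) = c • act g v
  norm : ∀ (g : G) (v : H), ‖act g v‖ = ‖v‖
  one : ∀ v : H, act 1 v = v
  mul : ∀ (g h : G) (v : H), act (g * h) v = act g (act h v)

/-- Property (T): every unitary representation on a complex Hilbert space which almost has
invariant vectors has a nonzero invariant vector. -/
def HasT (G : Type) [Group G] : Prop :=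
  ∀ (H : Type) [NormedAddCommGroup H] [InnerProductSpace ℂ H] [CompleteSpace H] (ρ : URep G H),
    (∀ (K : Finset G) (ε : ℝ), 0 < ε → ∃ v : H, ‖v‖ = 1 ∧ ∀ g ∈ K, ‖ρ.act g v - v‖ < ε) →
    ∃ v : H, v ≠ 0 ∧ ∀ g : G, ρ.act g v = v

/-- Complex `d × d` matrices. -/
abbrev Mt (d : ℕ) := Matrix (Fin d) (Fin d) ℂ

/-- The squared Hilbert-Schmidt norm: the sum of the squares of the absolute values of all entries.
The normalised 2-norm is `‖x‖₂² = tr (x* x) = hs x / d`. -/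
def hs {d : ℕ} (x : Mt d) : ℝ := ∑ i, ∑ j, ‖x i j‖ ^ 2

/-- The sequence `a` of matrices is bounded in operator norm. -/
def Bdd {d : ℕ → ℕ} (a : ∀ n, Mt (d n)) : Prop := ∃ B : ℝ, ∀ n, ‖a n‖ ≤ B

/-- The bounded sequences of matrices of sizes `d n`. -/
def Sq (d : ℕ → ℕ) : Type := {a : ∀ n, Mt (d n) // Bdd a}

/-- `a` and `b` are equivalent: `‖a n - b n‖₂ → 0` along the ultrafilter `𝒰`. -/
def Eqv (𝒰 : Ultrafilter ℕ) {d : ℕ → ℕ} (a b : Sq d) : Prop :=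
  Tendsto (fun n => hs (a.1 n - b.1 n) / d n) 𝒰 (𝓝 0)

lemma bdd_mul {d : ℕ → ℕ} (a b : Sq d) : Bdd fun n => a.1 n * b.1 n := by
  obtain ⟨A, hA⟩ := a.2
  obtain ⟨B, hB⟩ := b.2
  refine ⟨A * B, fun n => ?_⟩
  exact (norm_mul_le _ _).trans (mul_le_mul (hA n) (hB n) (norm_nonneg _)
    ((norm_nonneg _).trans (hA n)))

lemma bdd_star {d : ℕ → ℕ} (a : Sq d) : Bdd fun n => (a.1 n)ᴴ := by
  obtain ⟨A, hA⟩ := a.2
  exact ⟨A, fun n => by rw [Matrix.l2_opNorm_conjTranspose]; exact hA n⟩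

lemma bdd_one (d : ℕ → ℕ) : Bdd fun n => (1 : Mt (d n)) := by
  refine ⟨1, fun n => ?_⟩
  have h := CStarRing.norm_star_mul_self (x := (1 : Mt (d n)))
  rw [star_one, one_mul] at h
  nlinarith [norm_nonneg (1 : Mt (d n))]

lemma hs_nonneg {d : ℕ} (x : Mt d) : 0 ≤ hs x := by
  unfold hs
  positivity

lemma hs_eq_col {d : ℕ} (x : Mt d) :
    hs x = ∑ j, ‖(WithLp.toLp 2 (fun i => x i j) : EuclideanSpace ℂ (Fin d))‖ ^ 2 := by
  unfold hs
  rw [Finset.sum_comm]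
  refine Finset.sum_congr rfl fun j _ => ?_
  rw [EuclideanSpace.norm_sq_eq]

lemma hs_mul_le {d : ℕ} (a x : Mt d) : hs (a * x) ≤ ‖a‖ ^ 2 * hs x := by
  rw [hs_eq_col, hs_eq_col, Finset.mul_sum]
  refine Finset.sum_le_sum fun j _ => ?_
  rw [← mul_pow]
  refine pow_le_pow_left₀ (norm_nonneg _) ?_ 2
  exact Matrix.l2_opNorm_mulVec a (WithLp.toLp 2 (fun i => x i j) : EuclideanSpace ℂ (Fin d))

lemma hs_conjTranspose {d : ℕ} (x : Mt d) : hs xᴴ = hs x := by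
  unfold hs
  rw [Finset.sum_comm]
  simp

lemma hs_mul_le' {d : ℕ} (x a : Mt d) : hs (x * a) ≤ ‖a‖ ^ 2 * hs x := by
  have h := hs_mul_le aᴴ xᴴ
  rw [← Matrix.conjTranspose_mul, hs_conjTranspose, hs_conjTranspose,
    Matrix.l2_opNorm_conjTranspose] at h
  exact h

lemma eqv_mul_left {𝒰 : Ultrafilter ℕ} {d : ℕ → ℕ} (a b b' : Sq d) (h : Eqv 𝒰 b b') :
    Eqv 𝒰 (⟨fun n => a.1 n * b.1 n, bdd_mul a b⟩ : Sq d)
      ⟨fun n => a.1 n * b'.1 n, bdd_mul a b'⟩ := by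
  obtain ⟨A, hA⟩ := a.2
  have h2 : Tendsto (fun n => A ^ 2 * (hs (b.1 n - b'.1 n) / d n)) 𝒰 (𝓝 0) := by
    simpa using h.const_mul (A ^ 2)
  refine squeeze_zero (fun n => ?_) (fun n => ?_) h2
  · exact div_nonneg (hs_nonneg _) (Nat.cast_nonneg _)
  · rw [← mul_div_assoc]
    have e : a.1 n * b.1 n - a.1 n * b'.1 n = a.1 n * (b.1 n - b'.1 n) := by
      rw [Matrix.mul_sub]
    refine div_le_div_of_nonneg_right ?_ (Nat.cast_nonneg _)
    change hs (a.1 n * b.1 n - a.1 n * b'.1 n) ≤ _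
    rw [e]
    refine (hs_mul_le _ _).trans ?_
    exact mul_le_mul_of_nonneg_right (pow_le_pow_left₀ (norm_nonneg _) (hA n) 2) (hs_nonneg _)

lemma eqv_mul_right {𝒰 : Ultrafilter ℕ} {d : ℕ → ℕ} (a a' b : Sq d) (h : Eqv 𝒰 a a') :
    Eqv 𝒰 (⟨fun n => a.1 n * b.1 n, bdd_mul a b⟩ : Sq d)
      ⟨fun n => a'.1 n * b.1 n, bdd_mul a' b⟩ := by
  obtain ⟨B, hB⟩ := b.2
  have h2 : Tendsto (fun n => B ^ 2 * (hs (a.1 n - a'.1 n) / d n)) 𝒰 (𝓝 0) := by
    simpa using h.const_mul (B ^ 2)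
  refine squeeze_zero (fun n => ?_) (fun n => ?_) h2
  · exact div_nonneg (hs_nonneg _) (Nat.cast_nonneg _)
  · rw [← mul_div_assoc]
    have e : a.1 n * b.1 n - a'.1 n * b.1 n = (a.1 n - a'.1 n) * b.1 n := by
      rw [Matrix.sub_mul]
    refine div_le_div_of_nonneg_right ?_ (Nat.cast_nonneg _)
    change hs (a.1 n * b.1 n - a'.1 n * b.1 n) ≤ _
    rw [e]
    refine (hs_mul_le' _ _).trans ?_
    exact mul_le_mul_of_nonneg_right (pow_le_pow_left₀ (norm_nonneg _) (hB n) 2) (hs_nonneg _)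

lemma eqv_star {𝒰 : Ultrafilter ℕ} {d : ℕ → ℕ} (a b : Sq d) (h : Eqv 𝒰 a b) :
    Eqv 𝒰 (⟨fun n => (a.1 n)ᴴ, bdd_star a⟩ : Sq d) ⟨fun n => (b.1 n)ᴴ, bdd_star b⟩ := by
  unfold Eqv at *
  refine h.congr fun n => ?_
  change hs (a.1 n - b.1 n) / d n = hs ((a.1 n)ᴴ - (b.1 n)ᴴ) / d n
  rw [← Matrix.conjTranspose_sub, hs_conjTranspose]

/-- The tracial ultraproduct of the matrix algebras `M_{d n}`: bounded sequences modulo `Eqv`. -/
def MU (𝒰 : Ultrafilter ℕ) (d : ℕ → ℕ) : Type := Quot (Eqv 𝒰 (d := d))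

/-- The class of a bounded sequence in the ultraproduct. -/
def cls (𝒰 : Ultrafilter ℕ) {d : ℕ → ℕ} (a : Sq d) : MU 𝒰 d := Quot.mk _ a

/-- The unit of the ultraproduct. -/
def oneU (𝒰 : Ultrafilter ℕ) (d : ℕ → ℕ) : MU 𝒰 d := cls 𝒰 ⟨fun _ => 1, bdd_one d⟩

/-- The product in the ultraproduct, induced by the product of matrices. -/
def mulU {𝒰 : Ultrafilter ℕ} {d : ℕ → ℕ} (x y : MU 𝒰 d) : MU 𝒰 d :=
  Quot.map₂ (fun a b : Sq d => (⟨fun n => a.1 n * b.1 n, bdd_mul a b⟩ : Sq d)) eqv_mul_left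
    eqv_mul_right x y

/-- The adjoint in the ultraproduct, induced by the adjoint of matrices. -/
def starU {𝒰 : Ultrafilter ℕ} {d : ℕ → ℕ} (x : MU 𝒰 d) : MU 𝒰 d :=
  Quot.map (fun a : Sq d => (⟨fun n => (a.1 n)ᴴ, bdd_star a⟩ : Sq d)) eqv_star x

/-- Homomorphisms from `G` to the unitary group of the ultraproduct. -/
structure UHom (G : Type) [Group G] (𝒰 : Ultrafilter ℕ) (d : ℕ → ℕ) where
  map : G → MU 𝒰 d
  map_mul : ∀ g h : G, map (g * h) = mulU (map g) (map h)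
  map_one : map 1 = oneU 𝒰 d
  unit : ∀ g : G, mulU (starU (map g)) (map g) = oneU 𝒰 d

/-- The relative commutant of the image of `π`. -/
def Com {G : Type} [Group G] {𝒰 : Ultrafilter ℕ} {d : ℕ → ℕ} (π : UHom G 𝒰 d) :
    Set (MU 𝒰 d) :=
  {y | ∀ g : G, mulU y (π.map g) = mulU (π.map g) y}

/-- The ultraproduct of the sets `A n`: the classes of the bounded sequences `a` with
`a n ∈ A n` for all `n`. -/
def Ult (𝒰 : Ultrafilter ℕ) {d : ℕ → ℕ} (A : ∀ n, Set (Mt (d n))) : Set (MU 𝒰 d) :=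
  {y | ∃ a : Sq d, (∀ n, a.1 n ∈ A n) ∧ cls 𝒰 a = y}

end

end Pool.Agent.W661.RCU
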